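import Pool.Agent.H24.LP.Nib.Order

/-!
# Extension of a packing when `2 ext + int` is at most `(1 - ε) K`
-/

namespace Pool.Agent.H24.LP.Nib

open Finset

set_option linter.unusedSectionVars false

/-- the potential of a level -/
noncomputable def GG (A m : ℝ) : ℝ := m - A / m

/-- the capacity of a level, divided by `K` -/
noncomputable def cc (A m : ℝ) : ℝ := (1 + 3 / 2 * (A / m ^ 2)) / m

lemma cc_anti {A m m' : ℝ} (hA : 0 ≤ A) (hm : 0 < m) (h : m ≤ m') : cc A m' ≤ cc A m := by
  unfold cc
  have hm' : 0 < m' := by linarith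
  have h1 : A / m' ^ 2 ≤ A / m ^ 2 := by gcongr
  have h2 : 0 ≤ A / m ^ 2 := by positivity
  gcongr

lemma GG_step {A m : ℝ} (hA : 0 ≤ A) (hm : 1 < m) : GG A (m - 1) ≤ (1 - cc A m) * GG A m := by
  unfold GG cc
  have hm0 : 0 < m := by linarith
  have hm1 : 0 < m - 1 := by linarith
  have h1 : (1 - (1 + 3 / 2 * (A / m ^ 2)) / m) * (m - A / m) =
      m - 1 - A / m - (1 / 2) * (A / m ^ 2) + 3 / 2 * (A / m ^ 2) ^ 2 := by
    field_simp
    ring
  rw [h1]
  have h2 : A / (m - 1) - A / m = A / (m * (m - 1)) := by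
    field_simp
    ring
  have h3 : A / m ^ 2 ≤ A / (m * (m - 1)) := by
    apply div_le_div_of_nonneg_left hA (by positivity)
    nlinarith
  have h4 : 0 ≤ A / m ^ 2 := by positivity
  have h5 : 0 ≤ (A / m ^ 2) ^ 2 := by positivity
  linarith

lemma lin_bound {K x s u : ℕ} (hsu : s ≤ u) (huK : u ≤ K) (hK : K ≤ s + u) (hx : 2 * x ≤ K) :
    ((K : ℝ) - 2 * x) * ((s : ℝ) + u - K) ≤ s * (u - x) := by
  have h1 : (s : ℝ) ≤ u := by exact_mod_cast hsu
  have h2 : (u : ℝ) ≤ K := by exact_mod_cast huK
  have h3 : (K : ℝ) ≤ s + u := by exact_mod_cast hK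
  have h4 : (2 : ℝ) * x ≤ K := by exact_mod_cast hx
  have h5 : (0 : ℝ) ≤ x := Nat.cast_nonneg _
  have h6 : (0 : ℝ) ≤ s := Nat.cast_nonneg _
  -- linear in x
  have e0 : 0 ≤ ((K : ℝ) - u) * (K - s) := mul_nonneg (by linarith) (by linarith)
  have e1 : 0 ≤ (s : ℝ) * (K / 2 - (K - u)) := mul_nonneg h6 (by linarith)
  rcases (Nat.cast_nonneg K : (0 : ℝ) ≤ K).eq_or_lt with hK0 | hK0
  · have e1 : (K : ℝ) = 0 := hK0.symm
    have e2 : (u : ℝ) = 0 := le_antisymm (h2.trans e1.le) (Nat.cast_nonneg _)
    have e3 : (s : ℝ) = 0 := le_antisymm (h1.trans e2.le) h6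
    rw [e1, e2, e3]
    simp
  · have key : (K : ℝ) * (s * (u - x) - (K - 2 * x) * (s + u - K)) =
        (K - 2 * x) * ((K - u) * (K - s)) + 2 * x * (s * (K / 2 - (K - u))) := by ring
    have h7 : 0 ≤ (K : ℝ) * (s * (u - x) - (K - 2 * x) * (s + u - K)) := by
      rw [key]
      have := mul_nonneg (by linarith : 0 ≤ (K : ℝ) - 2 * x) e0
      have := mul_nonneg (by linarith : 0 ≤ 2 * (x : ℝ)) e1
      linarith
    have h8 := nonneg_of_mul_nonneg_right h7 hK0
    linarith

variable {V : Type} [Fintype V] [DecidableEq V]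

theorem extend {ε : ℝ} (hε : 0 < ε) (hε1 : ε < 1) : ∃ K0 : ℕ, ∀ K ≥ K0, ∀ (V : Type) [Fintype V]
    [DecidableEq V] (G : SimpleGraph V) (σ : V → V → Equiv.Perm (Fin K)),
    (∀ u v, G.Adj u v → σ v u = (σ u v)⁻¹) → ∀ (W R : Finset V) (π0 : V → Equiv.Perm (Fin K)),
    Disjoint W R → ValidK G σ W π0 →
    (∀ v ∈ R, 2 * ((nb G W v).card : ℝ) + (nb G R v).card ≤ (1 - ε) * K) →
    ∃ ρ : V → Equiv.Perm (Fin K), ValidK G σ (W ∪ R) ρ ∧ ∀ w ∈ W, ρ w = π0 w := by
  -- constants
  obtain ⟨C, hC⟩ : ∃ C, C = 2 / ε := ⟨_, rfl⟩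
  obtain ⟨κ, hκ⟩ : ∃ κ, κ = ε ^ 2 / 6 := ⟨_, rfl⟩
  obtain ⟨δ, hδ⟩ : ∃ δ, δ = κ / 4 := ⟨_, rfl⟩
  obtain ⟨ν, hν⟩ : ∃ ν, ν = δ / (64 * C ^ 4) := ⟨_, rfl⟩
  obtain ⟨ζ, hζ⟩ : ∃ ζ, ζ = ν / (2 * C) := ⟨_, rfl⟩
  have hC2 : 2 ≤ C := by
    rw [hC, le_div_iff₀ hε]
    linarith
  have hCε : C * ε = 2 := by
    rw [hC]
    field_simp
  have hκ0 : 0 < κ := by
    rw [hκ]
    positivity
  have hκ1 : κ ≤ 1 / 6 := by
    rw [hκ]
    have : ε ^ 2 ≤ 1 := by nlinarith
    linarith
  have hδ0 : 0 < δ := by
    rw [hδ]
    positivity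
  have hδ1 : δ ≤ 1 / 24 := by
    rw [hδ]
    linarith
  have hν0 : 0 < ν := by
    rw [hν]
    positivity
  have hν1 : 64 * C ^ 4 * ν ≤ δ := by
    rw [hν]
    apply le_of_eq
    field_simp
  have hζ0 : 0 < ζ := by
    rw [hζ]
    positivity
  have hζν : 2 * C * ζ ≤ ν := by
    rw [hζ]
    apply le_of_eq
    field_simp
  have hν2 : ν ≤ 1 := by
    have : 1 ≤ C ^ 4 := one_le_pow₀ (by linarith)
    nlinarith
  have hζ4 : ζ ≤ 4 := by nlinarith
  obtain ⟨K0, hK0⟩ := params (C := C) (ν := ν) (ζ := ζ) (by linarith) hν0 hζ0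
  refine ⟨max K0 1, ?_⟩
  intro K hK V _ _ G σ hσ W R π0 hWR hval hdeg
  obtain ⟨r, k, hr1, hr4, hk, hrL, hlog, hCK⟩ := hK0 K (le_trans (le_max_left _ _) hK)
  have hKpos : 0 < K := le_trans (le_max_right _ _) hK
  have hKr : (0 : ℝ) < K := by exact_mod_cast hKpos
  obtain ⟨A, hA⟩ : ∃ A, A = κ * (K : ℝ) ^ 2 := ⟨_, rfl⟩
  have hA0 : 0 ≤ A := by
    rw [hA]
    positivity
  -- the order
  obtain ⟨rk, hrk, hlevel⟩ := exists_order
    (fun Q v => (K : ℤ) - 2 * (nb G W v).card - (nb G Q v).card) R
  let bf : V → Finset V := fun v => R.filter fun u => rk u < rk v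
  let lev : V → ℝ := fun v => (K : ℝ) - 2 * (nb G W v).card - (nb G (bf v) v).card
  have hlev : ∀ v ∈ R, ∀ Q ⊆ R, ε * K ≤ (K : ℝ) - 2 * (nb G W v).card - (nb G Q v).card := by
    intro v hv Q hQ
    have h1 := hdeg v hv
    have h2 : ((nb G Q v).card : ℝ) ≤ (nb G R v).card := by
      exact_mod_cast Finset.card_le_card (nb_mono (G := G) hQ v)
    linarith
  have hεK : 0 < ε * K := by positivity
  have hlevK : ∀ v ∈ R, ε * K ≤ lev v := fun v hv => hlev v hv _ (Finset.filter_subset _ _)
  have hlev2 : ∀ v, lev v ≤ K := by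
    intro v
    simp only [lev]
    have h1 : (0 : ℝ) ≤ (nb G W v).card := Nat.cast_nonneg _
    have h2 : (0 : ℝ) ≤ (nb G (bf v) v).card := Nat.cast_nonneg _
    linarith
  have hz : ∀ m : ℝ, ε * K ≤ m → m ≤ K → κ ≤ A / m ^ 2 ∧ A / m ^ 2 ≤ 1 / 6 := by
    intro m h1 h2
    have hm : 0 < m := by linarith
    constructor
    · rw [le_div_iff₀ (by positivity), hA]
      apply mul_le_mul_of_nonneg_left _ hκ0.le
      exact pow_le_pow_left₀ hm.le h2 2
    · rw [div_le_iff₀ (by positivity), hA, hκ]
      have : (ε * K) ^ 2 ≤ m ^ 2 := pow_le_pow_left₀ hεK.le h1 2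
      nlinarith
  let cap : V → ℝ := fun v => K * cc A (lev v)
  let a : V → ℝ := fun v => 1 - 2 * (nb G W v).card / K
  have hcapK : ∀ v, cap v / K = cc A (lev v) := by
    intro v
    simp only [cap]
    field_simp
  have hcaplev : ∀ v ∈ R, (1 + κ) * K ≤ lev v * cap v ∧ lev v * cap v ≤ 5 / 4 * K := by
    intro v hv
    have h0 : 0 < lev v := lt_of_lt_of_le hεK (hlevK v hv)
    obtain ⟨h1, h2⟩ := hz (lev v) (hlevK v hv) (hlev2 v)
    have h3 : lev v * cap v = (1 + 3 / 2 * (A / lev v ^ 2)) * K := by
      simp only [cap, cc]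
      field_simp
    rw [h3]
    constructor
    · apply mul_le_mul_of_nonneg_right _ hKr.le
      linarith
    · apply mul_le_mul_of_nonneg_right _ hKr.le
      linarith
  have hcap0 : ∀ v ∈ R, 0 < cap v := by
    intro v hv
    have h0 : 0 < lev v := lt_of_lt_of_le hεK (hlevK v hv)
    have h1 := (hcaplev v hv).1
    by_contra hcon
    push Not at hcon
    have := mul_nonpos_of_nonneg_of_nonpos h0.le hcon
    nlinarith
  have hεK2 : 2 < ε * K := by
    have : C * ε < K * ε := mul_lt_mul_of_pos_right hCK hε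
    rw [hCε] at this
    linarith
  have hnb0 : ∀ v, nb G (∅ : Finset V) v = ∅ := by
    intro v
    ext x
    rw [mem_nb]
    simp
  -- the product
  have hstep : ∀ v ∈ R, ∀ j : ℕ, j ≤ rk v → GG A ((K : ℝ) - 2 * (nb G W v).card -
      (nb G (R.filter fun u => rk u < j) v).card) ≤
      PP G cap K (R.filter fun u => rk u < j) v * GG A ((K : ℝ) - 2 * (nb G W v).card) := by
    intro v hv j
    induction j with
    | zero =>
      intro _
      have hQ0 : (R.filter fun u => rk u < 0) = ∅ := by simp
      rw [hQ0]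
      unfold PP
      rw [hnb0, Finset.card_empty, Finset.prod_empty, Nat.cast_zero, sub_zero, one_mul]
    | succ j ih =>
      intro hj
      have ih' := ih (by omega)
      by_cases hex : ∃ u ∈ R, rk u = j
      · obtain ⟨u, hu, huj⟩ := hex
        have hQ' : (R.filter fun x => rk x < j + 1) = insert u (R.filter fun x => rk x < j) := by
          ext x
          simp only [Finset.mem_filter, Finset.mem_insert]
          constructor
          · rintro ⟨h1, h2⟩
            rcases Nat.lt_succ_iff_lt_or_eq.1 h2 with h3 | h3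
            · exact Or.inr ⟨h1, h3⟩
            · exact Or.inl (hrk x h1 u hu (h3.trans huj.symm))
          · rintro (rfl | ⟨h1, h2⟩)
            · exact ⟨hu, by omega⟩
            · exact ⟨h1, by omega⟩
        have huQ : u ∉ R.filter fun x => rk x < j := by
          rw [Finset.mem_filter]
          rintro ⟨-, h⟩
          omega
        by_cases hadj : G.Adj v u
        · have hm1 := hlev v hv (R.filter fun x => rk x < j + 1) (Finset.filter_subset _ _)
          have hlu := hlevel u hu v hv (by omega)
          rw [huj] at hlu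
          have hbfu : bf u = R.filter fun x => rk x < j := by
            simp only [bf, huj]
          have hlevu : (K : ℝ) - 2 * (nb G W v).card - (nb G (R.filter fun x => rk x < j) v).card ≤
              lev u := by
            simp only [lev, hbfu]
            exact_mod_cast hlu
          rw [hQ', nb_insert_adj G hadj, Finset.card_insert_of_notMem (fun h => by
            rw [mem_nb] at h
            exact huQ h.1)] at hm1 ⊢
          unfold PP
          rw [nb_insert_adj G hadj, Finset.prod_insert (fun h => by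
            rw [mem_nb] at h
            exact huQ h.1), hcapK u]
          unfold PP at ih'
          generalize ∏ u ∈ nb G (R.filter fun x => rk x < j) v, (1 - cap u / (K : ℝ)) = P at *
          push_cast at hm1 ⊢
          have hmK : (K : ℝ) - 2 * (nb G W v).card -
              (nb G (R.filter fun x => rk x < j) v).card ≤ K := by
            have h1 : (0 : ℝ) ≤ (nb G W v).card := Nat.cast_nonneg _
            have h2 : (0 : ℝ) ≤ (nb G (R.filter fun x => rk x < j) v).card := Nat.cast_nonneg _
            linarith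
          have e0 : (K : ℝ) - 2 * (nb G W v).card -
              (((nb G (R.filter fun x => rk x < j) v).card : ℝ) + 1) =
              (K : ℝ) - 2 * (nb G W v).card - (nb G (R.filter fun x => rk x < j) v).card - 1 := by
            ring
          rw [e0] at hm1 ⊢
          generalize (K : ℝ) - 2 * (nb G W v).card -
            (nb G (R.filter fun x => rk x < j) v).card = m at *
          generalize GG A ((K : ℝ) - 2 * (nb G W v).card) = g0 at *
          obtain ⟨hz1, hz2⟩ := hz m (by linarith) hmK
          have hm0 : 0 < m := by linarith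
          have hGm : 0 ≤ GG A m := by
            unfold GG
            have : A / m ≤ m := by
              rw [div_le_iff₀ hm0]
              rw [div_le_iff₀ (by positivity)] at hz2
              nlinarith
            linarith
          have hcm : cc A m ≤ 1 := by
            unfold cc
            rw [div_le_one hm0]
            linarith
          have hcu : cc A (lev u) ≤ cc A m := cc_anti hA0 hm0 hlevu
          calc GG A (m - 1) ≤ (1 - cc A m) * GG A m := GG_step hA0 (by linarith)
            _ ≤ (1 - cc A (lev u)) * GG A m :=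
                mul_le_mul_of_nonneg_right (by linarith) hGm
            _ ≤ (1 - cc A (lev u)) * (P * g0) :=
                mul_le_mul_of_nonneg_left ih' (by linarith)
            _ = (1 - cc A (lev u)) * P * g0 := by ring
        · rw [hQ']
          unfold PP at ih' ⊢
          rw [nb_insert_nadj G hadj]
          exact ih'
      · have hQ' : (R.filter fun x => rk x < j + 1) = R.filter fun x => rk x < j := by
          ext x
          simp only [Finset.mem_filter]
          constructor
          · rintro ⟨h1, h2⟩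
            rcases Nat.lt_succ_iff_lt_or_eq.1 h2 with h3 | h3
            · exact ⟨h1, h3⟩
            · exact absurd ⟨x, h1, h3⟩ hex
          · rintro ⟨h1, h2⟩
            exact ⟨h1, by omega⟩
        rw [hQ']
        exact ih'
  obtain ⟨ρ, hρ1, hρ2⟩ := key hσ (r := r) (k := k) (D := K) (C := C) (δ := δ) (ν := ν) (ζ := ζ)
    hKpos (by linarith) hδ0 (by linarith) hν0 hν1 hζ0 hζ4 hr1 hr4 hk hrL hζν hKpos hlog hCK
    W R hWR π0 hval rk hrk cap a
    (by
      intro v hv
      have h1 := (hcaplev v hv).1
      have h2 := hlev2 v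
      have h3 := hcap0 v hv
      have h4 : lev v * cap v ≤ K * cap v := mul_le_mul_of_nonneg_right h2 h3.le
      have h5 : K * 1 ≤ K * cap v := by nlinarith
      exact le_of_mul_le_mul_left h5 hKr)
    (by
      intro v hv
      have h1 := (hcaplev v hv).2
      have h2 := hlevK v hv
      have h3 := hcap0 v hv
      have h4 : ε * K * cap v ≤ lev v * cap v := mul_le_mul_of_nonneg_right h2 h3.le
      have h5 : K * (ε * cap v) ≤ K * 2 := by nlinarith
      have h6 : ε * cap v ≤ 2 := le_of_mul_le_mul_left h5 hKr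
      rw [hC, le_div_iff₀ hε]
      linarith)
    (by
      intro v hv
      have h1 := hstep v hv (rk v) le_rfl
      have hPpos : 0 ≤ PP G cap K (R.filter fun u => rk u < rk v) v := by
        unfold PP
        apply Finset.prod_nonneg
        intro u hu
        rw [mem_nb, Finset.mem_filter] at hu
        rw [hcapK u]
        have h2 := hlevK u hu.1.1
        have h3 := (hz (lev u) h2 (hlev2 u)).2
        have : cc A (lev u) ≤ 1 := by
          unfold cc
          rw [div_le_one (by linarith)]
          linarith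
        linarith
      have h2 : GG A ((K : ℝ) - 2 * (nb G W v).card) ≤ K * a v := by
        unfold GG
        simp only [a]
        have h3 := hlevK v hv
        have h4 : (0 : ℝ) ≤ (nb G (bf v) v).card := Nat.cast_nonneg _
        simp only [lev] at h3
        have h5 : 0 ≤ A / ((K : ℝ) - 2 * (nb G W v).card) := by
          apply div_nonneg hA0
          linarith
        have h6 : K * (1 - 2 * ((nb G W v).card : ℝ) / K) = K - 2 * (nb G W v).card := by
          field_simp
        rw [h6]
        linarith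
      have h3 : GG A (lev v) ≤ PP G cap K (R.filter fun u => rk u < rk v) v * (K * a v) :=
        h1.trans (mul_le_mul_of_nonneg_left h2 hPpos)
      have h0 : 0 < lev v := lt_of_lt_of_le hεK (hlevK v hv)
      obtain ⟨hz1, hz2⟩ := hz (lev v) (hlevK v hv) (hlev2 v)
      have hcc : 0 ≤ cc A (lev v) := by
        unfold cc
        positivity
      have h4 : GG A (lev v) * cc A (lev v) = (1 - A / lev v ^ 2) * (1 + 3 / 2 * (A / lev v ^ 2)) := by
        unfold GG cc
        field_simp
      have h5 : 1 + δ ≤ GG A (lev v) * cc A (lev v) := by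
        rw [h4]
        generalize A / lev v ^ 2 = z at *
        nlinarith
      have h6 : GG A (lev v) * cc A (lev v) ≤
          PP G cap K (R.filter fun u => rk u < rk v) v * (K * a v) * cc A (lev v) :=
        mul_le_mul_of_nonneg_right h3 hcc
      refine h5.trans (h6.trans (le_of_eq ?_))
      simp only [cap]
      ring)
    (by
      intro v hv
      have h1 := hlevK v hv
      have h2 : (0 : ℝ) ≤ (nb G (bf v) v).card := Nat.cast_nonneg _
      simp only [lev] at h1
      have h3 : C * (2 * (nb G W v).card) ≤ C * (K - ε * K) :=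
        mul_le_mul_of_nonneg_left (by linarith) (by linarith)
      have h4 : C * (K - ε * K) = C * K - C * ε * K := by ring
      rw [h4, hCε] at h3
      linarith)
    (by
      intro v hv
      have h1 := (hcaplev v hv).1
      have h3 := hcap0 v hv
      have h4 : (1 + δ) * K ≤ (1 + κ) * K := by
        apply mul_le_mul_of_nonneg_right _ hKr.le
        linarith
      refine h4.trans (h1.trans ?_)
      apply mul_le_mul_of_nonneg_right _ h3.le
      have h5 : (0 : ℝ) ≤ (nb G W v).card := Nat.cast_nonneg _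
      simp only [lev]
      push_cast
      linarith)
    (by
      intro v hv s u hsu huK hsum
      have h1 := hlevK v hv
      have h2 : (0 : ℝ) ≤ (nb G (bf v) v).card := Nat.cast_nonneg _
      simp only [lev] at h1
      have h3 : 2 * (nb G W v).card ≤ K := by
        have : (2 : ℝ) * (nb G W v).card ≤ K := by linarith
        exact_mod_cast this
      have h4 := lin_bound hsu huK hsum h3
      have h5 : a v * K = K - 2 * (nb G W v).card := by
        simp only [a]
        field_simp
      rw [h5]
      exact h4)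
    (by
      intro v hv
      have h1 := hdeg v hv
      have h2 : (0 : ℝ) ≤ (nb G W v).card := Nat.cast_nonneg _
      have h3 : ((nb G R v).card : ℝ) ≤ K := by nlinarith
      exact_mod_cast h3)
  exact ⟨ρ, hρ1, hρ2⟩

end Pool.Agent.H24.LP.Nib
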