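import Pool.Agent.H24.LP.Nib.Sampler

/-!
# Repairing the bad rows
-/

namespace Pool.Agent.H24.LP.Nib

open Finset

set_option linter.unusedSectionVars false

/-- rows reachable from `a0` -/
def reach {K : ℕ} (B : Finset (Fin K × Fin K)) (μ : Equiv.Perm (Fin K)) (a0 : Fin K) :
    ℕ → Finset (Fin K)
  | 0 => {a0}
  | i + 1 => reach B μ a0 i ∪
      Finset.univ.filter fun a => ∃ a' ∈ reach B μ a0 i, (a', μ a) ∈ B

/-- moved rows of a permutation -/
def moved {K : ℕ} (c : Equiv.Perm (Fin K)) : Finset (Fin K) := Finset.univ.filter fun a => c a ≠ a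

lemma mem_moved {K : ℕ} {c : Equiv.Perm (Fin K)} {a : Fin K} : a ∈ moved c ↔ c a ≠ a := by
  unfold moved
  simp

section

variable {K : ℕ} (B : Finset (Fin K × Fin K)) (t : ℕ)
  (hB : ∀ S T : Finset (Fin K), S.Nonempty → T.Nonempty → K ≤ S.card + T.card + t →
    (rect B S T).Nonempty) (μ : Equiv.Perm (Fin K)) (a0 : Fin K)

lemma reach_nonempty (i : ℕ) : a0 ∈ reach B μ a0 i := by
  induction i with
  | zero => simp [reach]
  | succ i ih =>
    unfold reach
    exact Finset.mem_union_left _ ih

include hB in
lemma reach_card (i : ℕ) : K ≤ (reach B μ a0 i).card ∨ 1 + i * (t + 1) ≤ (reach B μ a0 i).card := by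
  induction i with
  | zero =>
    right
    simp [reach]
  | succ i ih =>
    have hmono : (reach B μ a0 i).card ≤ (reach B μ a0 (i + 1)).card :=
      Finset.card_le_card Finset.subset_union_left
    rcases ih with ih | ih
    · left
      omega
    · by_cases hfull : reach B μ a0 (i + 1) = Finset.univ
      · left
        rw [hfull, Finset.card_univ, Fintype.card_fin]
      · right
        by_contra hcon
        push Not at hcon
        have hne : ((reach B μ a0 (i + 1))ᶜ.image μ).Nonempty := by
          rw [Finset.image_nonempty, Finset.nonempty_iff_ne_empty]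
          intro h
          exact hfull (by simpa using h)
        have hcard : ((reach B μ a0 (i + 1))ᶜ.image μ).card = K - (reach B μ a0 (i + 1)).card := by
          rw [Finset.card_image_of_injective _ μ.injective, Finset.card_compl, Fintype.card_fin]
        have hle : (reach B μ a0 (i + 1)).card ≤ K := by
          have := Finset.card_le_univ (reach B μ a0 (i + 1))
          rwa [Fintype.card_fin] at this
        have hexp : (i + 1) * (t + 1) = i * (t + 1) + (t + 1) := by ring
        obtain ⟨q, hq⟩ := hB (reach B μ a0 i) _ ⟨a0, reach_nonempty B μ a0 i⟩ hne (by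
          rw [hcard]
          omega)
        rw [mem_rect, Finset.mem_image] at hq
        obtain ⟨h1, h2, a, ha, h3⟩ := hq
        rw [Finset.mem_compl] at ha
        apply ha
        unfold reach
        rw [Finset.mem_union, Finset.mem_filter]
        right
        refine ⟨Finset.mem_univ _, q.1, h2, ?_⟩
        rw [h3]
        exact h1

lemma rotate (i : ℕ) : ∀ a ∈ reach B μ a0 i, ∃ c : Equiv.Perm (Fin K), c a = a0 ∧
    (∀ x, x ≠ a → c x ≠ x → (x, μ (c x)) ∈ B) ∧ (∀ x, c x ≠ x → x ∈ reach B μ a0 i) ∧
    (insert a (moved c)).card ≤ i + 1 := by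
  induction i with
  | zero =>
    intro a ha
    unfold reach at ha
    rw [Finset.mem_singleton] at ha
    subst ha
    refine ⟨1, rfl, ?_, ?_, ?_⟩
    · intro x _ h
      exact absurd rfl h
    · intro x h
      exact absurd rfl h
    · have : moved (1 : Equiv.Perm (Fin K)) = ∅ := by
        unfold moved
        simp
      rw [this]
      simp
  | succ i ih =>
    intro a ha
    have hsub : reach B μ a0 i ⊆ reach B μ a0 (i + 1) := Finset.subset_union_left
    by_cases hai : a ∈ reach B μ a0 i
    · obtain ⟨c, h1, h2, h3, h4⟩ := ih a hai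
      exact ⟨c, h1, h2, fun x hx => hsub (h3 x hx), h4.trans (Nat.le_succ _)⟩
    · have ha2 := ha
      unfold reach at ha2
      rw [Finset.mem_union, Finset.mem_filter] at ha2
      rcases ha2 with h | ⟨-, a', ha', hB'⟩
      · exact absurd h hai
      obtain ⟨c, h1, h2, h3, h4⟩ := ih a' ha'
      have hne : a ≠ a' := fun h => hai (h ▸ ha')
      have hca : c a = a := by
        by_contra hcon
        exact hai (h3 a hcon)
      have e1 : (c * Equiv.swap a a') a = a0 := by
        rw [Equiv.Perm.mul_apply, Equiv.swap_apply_left, h1]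
      have e2 : (c * Equiv.swap a a') a' = a := by
        rw [Equiv.Perm.mul_apply, Equiv.swap_apply_right, hca]
      have e3 : ∀ x, x ≠ a → x ≠ a' → (c * Equiv.swap a a') x = c x := by
        intro x hx hx'
        rw [Equiv.Perm.mul_apply, Equiv.swap_apply_of_ne_of_ne hx hx']
      refine ⟨c * Equiv.swap a a', e1, ?_, ?_, ?_⟩
      · intro x hx hmv
        by_cases hx' : x = a'
        · subst hx'
          rw [e2]
          exact hB'
        · rw [e3 x hx hx'] at hmv ⊢
          exact h2 x hx' hmv
      · intro x hmv
        by_cases hx : x = a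
        · rw [hx]
          exact ha
        · by_cases hx' : x = a'
          · rw [hx']
            exact hsub ha'
          · rw [e3 x hx hx'] at hmv
            exact hsub (h3 x hmv)
      · have hsub2 : insert a (moved (c * Equiv.swap a a')) ⊆ insert a (insert a' (moved c)) := by
          intro x hx
          rw [Finset.mem_insert, mem_moved] at hx
          rw [Finset.mem_insert, Finset.mem_insert, mem_moved]
          by_cases hxa : x = a
          · exact Or.inl hxa
          · by_cases hxa' : x = a'
            · exact Or.inr (Or.inl hxa')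
            · right; right
              rcases hx with h | h
              · exact absurd h hxa
              · rwa [e3 x hxa hxa'] at h
        refine (Finset.card_le_card hsub2).trans ((Finset.card_insert_le _ _).trans ?_)
        omega

include hB in
/-- repairing one row -/
lemma fix_one (L : ℕ) (hL : K ≤ L * (t + 1) + 1) (hL1 : 1 ≤ L) (ha0 : (a0, μ a0) ∉ B) :
    ∃ c : Equiv.Perm (Fin K), (∀ x, c x ≠ x → (x, μ (c x)) ∈ B) ∧ c a0 ≠ a0 ∧
      (moved c).card ≤ L := by
  obtain ⟨i, rfl⟩ : ∃ i, L = i + 1 := ⟨L - 1, by omega⟩
  have hexp : (i + 1) * (t + 1) = i * (t + 1) + (t + 1) := by ring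
  have hcard : K ≤ (reach B μ a0 i).card + 1 + t := by
    rcases reach_card B t hB μ a0 i with h | h
    · omega
    · omega
  obtain ⟨q, hq⟩ := hB (reach B μ a0 i) {μ a0} ⟨a0, reach_nonempty B μ a0 i⟩ (Finset.singleton_nonempty _) (by
    rw [Finset.card_singleton]
    exact hcard)
  rw [mem_rect, Finset.mem_singleton] at hq
  obtain ⟨h1, h2, h3⟩ := hq
  have hqB : (q.1, μ a0) ∈ B := by
    rw [← h3]
    exact h1
  obtain ⟨c, hc1, hc2, -, hc4⟩ := rotate B μ a0 i q.1 h2
  have hne : q.1 ≠ a0 := by
    intro h
    rw [h] at hqB
    exact ha0 hqB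
  refine ⟨c, ?_, ?_, ?_⟩
  · intro x hx
    by_cases hxq : x = q.1
    · rw [hxq, hc1]
      exact hqB
    · exact hc2 x hxq hx
  · intro h
    apply hne
    apply c.injective
    rw [hc1, h]
  · exact (Finset.card_le_card (Finset.subset_insert _ _)).trans hc4

include hB in
/-- repairing all bad rows -/
theorem fix_all (L : ℕ) (hL : K ≤ L * (t + 1) + 1) (hL1 : 1 ≤ L) :
    ∃ π : Equiv.Perm (Fin K), (∀ a, (a, π a) ∈ B) ∧
      (Finset.univ.filter fun a => π a ≠ μ a).card ≤ (bad B μ).card * L := by
  have key : ∀ n : ℕ, ∀ μ : Equiv.Perm (Fin K), (bad B μ).card = n →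
      ∃ π : Equiv.Perm (Fin K), (∀ a, (a, π a) ∈ B) ∧
        (Finset.univ.filter fun a => π a ≠ μ a).card ≤ n * L := by
    intro n
    induction n using Nat.strong_induction_on with
    | _ n ih =>
      intro μ hn
      rcases (bad B μ).eq_empty_or_nonempty with h0 | ⟨a0, ha0⟩
      · refine ⟨μ, ?_, ?_⟩
        · intro a
          by_contra hcon
          have : a ∈ bad B μ := by
            unfold bad
            rw [Finset.mem_filter]
            exact ⟨Finset.mem_univ _, hcon⟩
          rw [h0] at this
          exact absurd this (Finset.notMem_empty a)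
        · simp
      · have ha0' : (a0, μ a0) ∉ B := by
          unfold bad at ha0
          rw [Finset.mem_filter] at ha0
          exact ha0.2
        obtain ⟨c, hc1, hc2, hc3⟩ := fix_one B t hB μ a0 L hL hL1 ha0'
        have hsub : bad B (μ * c) ⊆ (bad B μ).erase a0 := by
          intro a ha
          unfold bad at ha ⊢
          rw [Finset.mem_filter, Equiv.Perm.mul_apply] at ha
          have hfix : c a = a := by
            by_contra hcon
            exact ha.2 (hc1 a hcon)
          rw [Finset.mem_erase, Finset.mem_filter]
          refine ⟨?_, Finset.mem_univ _, ?_⟩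
          · intro h
            rw [h] at hfix
            exact hc2 hfix
          · rw [hfix] at ha
            exact ha.2
        have hlt : (bad B (μ * c)).card < n := by
          rw [← hn]
          exact lt_of_le_of_lt (Finset.card_le_card hsub) (Finset.card_erase_lt_of_mem ha0)
        obtain ⟨π, hπ1, hπ2⟩ := ih _ hlt (μ * c) rfl
        refine ⟨π, hπ1, ?_⟩
        have hsub2 : (Finset.univ.filter fun a => π a ≠ μ a) ⊆
            (Finset.univ.filter fun a => π a ≠ (μ * c) a) ∪ moved c := by
          intro a ha
          rw [Finset.mem_filter] at ha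
          rw [Finset.mem_union, Finset.mem_filter, mem_moved]
          by_cases hm : c a = a
          · left
            refine ⟨Finset.mem_univ _, ?_⟩
            rw [Equiv.Perm.mul_apply, hm]
            exact ha.2
          · exact Or.inr hm
        have h1 := (Finset.card_le_card hsub2).trans (Finset.card_union_le _ _)
        have h2 : (bad B (μ * c)).card * L + L ≤ n * L := by
          rw [← Nat.succ_mul]
          exact Nat.mul_le_mul_right _ hlt
        omega
  obtain ⟨π, h1, h2⟩ := key _ μ rfl
  exact ⟨π, h1, h2⟩

end

lemma hits_le_add {K : ℕ} (π μ : Equiv.Perm (Fin K)) (A : Finset (Fin K × Fin K)) :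
    hits π A ≤ hits μ A + (Finset.univ.filter fun a => π a ≠ μ a).card := by
  unfold hits
  refine le_trans (Finset.card_le_card ?_) (Finset.card_union_le _ _)
  intro a ha
  rw [Finset.mem_filter] at ha
  rw [Finset.mem_union, Finset.mem_filter, Finset.mem_filter]
  by_cases h : π a = μ a
  · left
    rw [← h]
    exact ha
  · exact Or.inr ⟨Finset.mem_univ _, h⟩

end Pool.Agent.H24.LP.Nib
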