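import Mathlib

/-!
# Integer flows with capacities and decomposition into permutations
-/

namespace Pool.Agent.H24.LP.Nib

open Finset

set_option linter.unusedSectionVars false

/-- the cells of `B` in a rectangle -/
def rect {K : ℕ} (B : Finset (Fin K × Fin K)) (S T : Finset (Fin K)) : Finset (Fin K × Fin K) :=
  B.filter fun p => p.1 ∈ S ∧ p.2 ∈ T

lemma mem_rect {K : ℕ} {B : Finset (Fin K × Fin K)} {S T : Finset (Fin K)} {p : Fin K × Fin K} :
    p ∈ rect B S T ↔ p ∈ B ∧ p.1 ∈ S ∧ p.2 ∈ T := by
  unfold rect
  rw [Finset.mem_filter]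

section Flow

variable {K N cap : ℕ} (B : Finset (Fin K × Fin K))

/-- left nodes -/
abbrev Lf (K N cap : ℕ) (B : Finset (Fin K × Fin K)) : Type :=
  (Fin K × Fin N) ⊕ ({p // p ∈ B} × Fin cap)

/-- right nodes -/
abbrev Rt (K N cap : ℕ) (B : Finset (Fin K × Fin K)) : Type :=
  ({p // p ∈ B} × Fin cap) ⊕ (Fin K × Fin N)

/-- adjacency -/
def Rel : Lf K N cap B → Rt K N cap B → Prop
  | Sum.inl x, Sum.inl y => y.1.1.1 = x.1
  | Sum.inl _, Sum.inr _ => False
  | Sum.inr x, Sum.inl y => y.1 = x.1
  | Sum.inr x, Sum.inr y => x.1.1.2 = y.1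

lemma hall_cond (h : ∀ S T : Finset (Fin K),
    N * (S.card + T.card) ≤ N * K + cap * (rect B S T).card)
    (A : Finset (Lf K N cap B)) [DecidablePred fun b => ∃ a ∈ A, Rel B a b] :
    A.card ≤ (Finset.univ.filter fun b : Rt K N cap B => ∃ a ∈ A, Rel B a b).card := by
  classical
  set S : Finset (Fin K) := Finset.univ.filter fun a => ∃ i : Fin N, (Sum.inl (a, i) : Lf K N cap B) ∈ A
    with hS
  set E : Finset {p // p ∈ B} := Finset.univ.filter fun p =>
    ∃ j : Fin cap, (Sum.inr (p, j) : Lf K N cap B) ∈ A with hE
  have hA : A.card ≤ S.card * N + E.card * cap := by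
    have hsub : A ⊆ (S ×ˢ (Finset.univ : Finset (Fin N))).image Sum.inl ∪
        (E ×ˢ (Finset.univ : Finset (Fin cap))).image Sum.inr := by
      rintro (⟨a, i⟩ | ⟨p, j⟩) hx
      · rw [Finset.mem_union]
        left
        rw [Finset.mem_image]
        refine ⟨(a, i), ?_, rfl⟩
        rw [Finset.mem_product]
        exact ⟨Finset.mem_filter.2 ⟨Finset.mem_univ _, i, hx⟩, Finset.mem_univ _⟩
      · rw [Finset.mem_union]
        right
        rw [Finset.mem_image]
        refine ⟨(p, j), ?_, rfl⟩
        rw [Finset.mem_product]
        exact ⟨Finset.mem_filter.2 ⟨Finset.mem_univ _, j, hx⟩, Finset.mem_univ _⟩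
    refine (Finset.card_le_card hsub).trans ((Finset.card_union_le _ _).trans ?_)
    refine Nat.add_le_add ?_ ?_
    · refine Finset.card_image_le.trans ?_
      rw [Finset.card_product, Finset.card_univ, Fintype.card_fin]
    · refine Finset.card_image_le.trans ?_
      rw [Finset.card_product, Finset.card_univ, Fintype.card_fin]
  set F : Finset {p // p ∈ B} := Finset.univ.filter fun p => p.1.1 ∈ S ∨ p ∈ E with hF
  set C : Finset (Fin K) := E.image fun p => p.1.2 with hC
  have hR : F.card * cap + C.card * N ≤
      (Finset.univ.filter fun b : Rt K N cap B => ∃ a ∈ A, Rel B a b).card := by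
    have hsub : ((F ×ˢ (Finset.univ : Finset (Fin cap))).image Sum.inl ∪
        (C ×ˢ (Finset.univ : Finset (Fin N))).image Sum.inr : Finset (Rt K N cap B)) ⊆
        (Finset.univ.filter fun b : Rt K N cap B => ∃ a ∈ A, Rel B a b) := by
      intro y hy
      rw [Finset.mem_filter]
      refine ⟨Finset.mem_univ _, ?_⟩
      rw [Finset.mem_union, Finset.mem_image, Finset.mem_image] at hy
      rcases hy with ⟨⟨p, j⟩, hp, rfl⟩ | ⟨⟨b, i⟩, hb, rfl⟩
      · rw [Finset.mem_product] at hp
        have hp1 := hp.1
        rw [hF, Finset.mem_filter] at hp1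
        rcases hp1.2 with h1 | h1
        · rw [hS, Finset.mem_filter] at h1
          obtain ⟨-, i, hi⟩ := h1
          exact ⟨_, hi, rfl⟩
        · rw [hE, Finset.mem_filter] at h1
          obtain ⟨-, j', hj'⟩ := h1
          exact ⟨_, hj', rfl⟩
      · rw [Finset.mem_product] at hb
        have hb1 := hb.1
        rw [hC, Finset.mem_image] at hb1
        obtain ⟨p, hp, hpb⟩ := hb1
        rw [hE, Finset.mem_filter] at hp
        obtain ⟨-, j', hj'⟩ := hp
        exact ⟨_, hj', hpb⟩
    refine le_trans ?_ (Finset.card_le_card hsub)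
    rw [Finset.card_union_of_disjoint]
    · rw [Finset.card_image_of_injective _ Sum.inl_injective,
        Finset.card_image_of_injective _ Sum.inr_injective, Finset.card_product,
        Finset.card_product, Finset.card_univ, Finset.card_univ, Fintype.card_fin,
        Fintype.card_fin]
    · rw [Finset.disjoint_left]
      intro y h1 h2
      rw [Finset.mem_image] at h1 h2
      obtain ⟨_, _, rfl⟩ := h1
      obtain ⟨_, _, h⟩ := h2
      cases h
  have hFE : E.card + (rect B S Cᶜ).card ≤ F.card := by
    have hinj : (rect B S Cᶜ).card = ((Finset.univ : Finset {p // p ∈ B}).filter fun p =>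
        p.1.1 ∈ S ∧ p.1.2 ∈ Cᶜ).card := by
      symm
      apply Finset.card_bij (fun p _ => p.1)
      · intro p hp
        rw [Finset.mem_filter] at hp
        rw [mem_rect]
        exact ⟨p.2, hp.2⟩
      · intro p _ q _ h
        exact Subtype.ext h
      · intro p hp
        rw [mem_rect] at hp
        exact ⟨⟨p, hp.1⟩, by rw [Finset.mem_filter]; exact ⟨Finset.mem_univ _, hp.2⟩, rfl⟩
    rw [hinj, ← Finset.card_union_of_disjoint]
    · apply Finset.card_le_card
      intro p hp
      rw [Finset.mem_union] at hp
      rw [hF, Finset.mem_filter]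
      rcases hp with hp | hp
      · exact ⟨Finset.mem_univ _, Or.inr hp⟩
      · rw [Finset.mem_filter] at hp
        exact ⟨Finset.mem_univ _, Or.inl hp.2.1⟩
    · rw [Finset.disjoint_left]
      intro p hp hp'
      rw [Finset.mem_filter, Finset.mem_compl] at hp'
      exact hp'.2.2 (Finset.mem_image_of_mem _ hp)
  have h1 := h S Cᶜ
  rw [Finset.card_compl, Fintype.card_fin] at h1
  have hCK : C.card ≤ K := by
    have := Finset.card_le_univ C
    rwa [Fintype.card_fin] at this
  have h2 : N * (S.card + (K - C.card)) + N * C.card = N * S.card + N * K := by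
    rw [← mul_add]
    have : S.card + (K - C.card) + C.card = S.card + K := by omega
    rw [this, mul_add]
  have h3 : (E.card + (rect B S Cᶜ).card) * cap ≤ F.card * cap := Nat.mul_le_mul_right _ hFE
  have h4 : S.card * N = N * S.card := mul_comm _ _
  have h5 : C.card * N = N * C.card := mul_comm _ _
  have h6 : (E.card + (rect B S Cᶜ).card) * cap = E.card * cap + cap * (rect B S Cᶜ).card := by
    ring
  omega

lemma card_filter_sum {α β : Type} [Fintype α] [Fintype β] (P : α ⊕ β → Prop) [DecidablePred P] :
    (Finset.univ.filter P).card = (Finset.univ.filter fun a => P (Sum.inl a)).card +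
      (Finset.univ.filter fun b => P (Sum.inr b)).card := by
  rw [Finset.card_filter, Finset.card_filter, Finset.card_filter, Fintype.sum_sum_type]

/-- integer flow with capacities -/
theorem flow (h : ∀ S T : Finset (Fin K),
    N * (S.card + T.card) ≤ N * K + cap * (rect B S T).card) :
    ∃ x : Fin K × Fin K → ℕ, (∀ p, x p ≤ cap) ∧ (∀ p, p ∉ B → x p = 0) ∧
      (∀ a, ∑ b, x (a, b) = N) ∧ (∀ b, ∑ a, x (a, b) = N) := by
  classical
  obtain ⟨f, hf, hfr⟩ := (Fintype.all_card_le_filter_rel_iff_exists_injective (Rel B)).1
    (fun A => hall_cond (N := N) (cap := cap) B h A)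
  have hbij : Function.Bijective f := by
    rw [Fintype.bijective_iff_injective_and_card]
    refine ⟨hf, ?_⟩
    simp only [Fintype.card_sum, Fintype.card_prod]
    ring
  have hq : ∀ ai : Fin K × Fin N, ∃ y : {p // p ∈ B} × Fin cap,
      f (Sum.inl ai) = Sum.inl y ∧ y.1.1.1 = ai.1 := by
    intro ai
    have := hfr (Sum.inl ai)
    rcases hy : f (Sum.inl ai) with y | y
    · rw [hy] at this
      exact ⟨y, rfl, this⟩
    · rw [hy] at this
      exact absurd this (by simp [Rel])
  choose q hq1 hq2 using hq
  refine ⟨fun p => (Finset.univ.filter fun ai => (q ai).1.1 = p).card, ?_, ?_, ?_, ?_⟩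
  · intro p
    by_cases hp : p ∈ B
    · have : (Finset.univ.filter fun ai => (q ai).1.1 = p).card ≤
          (Finset.univ : Finset (Fin cap)).card := by
        apply Finset.card_le_card_of_injOn (fun ai => (q ai).2) (fun _ _ => Finset.mem_univ _)
        intro ai hai ai' hai' heq
        have h1 : (q ai).1.1 = p := (Finset.mem_filter.1 hai).2
        have h2 : (q ai').1.1 = p := (Finset.mem_filter.1 hai').2
        have h3 : q ai = q ai' := Prod.ext (Subtype.ext (h1.trans h2.symm)) heq
        have h4 : f (Sum.inl ai) = f (Sum.inl ai') := by rw [hq1, hq1, h3]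
        exact Sum.inl_injective (hf h4)
      rwa [Finset.card_univ, Fintype.card_fin] at this
    · have : (Finset.univ.filter fun ai => (q ai).1.1 = p) = ∅ := by
        rw [Finset.filter_eq_empty_iff]
        intro ai _ h1
        exact hp (h1 ▸ (q ai).1.2)
      simp only
      rw [this]
      simp
  · intro p hp
    rw [Finset.card_eq_zero, Finset.filter_eq_empty_iff]
    intro ai _ h1
    exact hp (h1 ▸ (q ai).1.2)
  · intro a
    have h1 : ∑ b, (Finset.univ.filter fun ai => (q ai).1.1 = (a, b)).card =
        (Finset.univ.filter fun ai : Fin K × Fin N => ai.1 = a).card := by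
      rw [Finset.card_eq_sum_card_fiberwise (f := fun ai => (q ai).1.1.2) (t := Finset.univ)
        (fun _ _ => Finset.mem_univ _)]
      apply Finset.sum_congr rfl
      intro b _
      congr 1
      ext ai
      simp only [Finset.mem_filter, Finset.mem_univ, true_and]
      constructor
      · intro h1
        rw [← hq2 ai, h1]
        exact ⟨rfl, rfl⟩
      · rintro ⟨h1, h2⟩
        exact Prod.ext ((hq2 ai).trans h1) h2
    rw [h1]
    have : (Finset.univ.filter fun ai : Fin K × Fin N => ai.1 = a) = {a} ×ˢ Finset.univ := by
      ext ai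
      rw [Finset.mem_filter, Finset.mem_product, Finset.mem_singleton]
      simp
    rw [this, Finset.card_product, Finset.card_singleton, Finset.card_univ, Fintype.card_fin,
      one_mul]
  · intro b
    have h1 : ∑ a, (Finset.univ.filter fun ai => (q ai).1.1 = (a, b)).card =
        (Finset.univ.filter fun ai => (q ai).1.1.2 = b).card := by
      rw [Finset.card_eq_sum_card_fiberwise (f := fun ai => (q ai).1.1.1) (t := Finset.univ)
        (fun _ _ => Finset.mem_univ _)]
      apply Finset.sum_congr rfl
      intro a _
      congr 1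
      ext ai
      simp only [Finset.mem_filter, Finset.mem_univ, true_and]
      constructor
      · intro h1
        rw [h1]
        exact ⟨rfl, rfl⟩
      · rintro ⟨h1, h2⟩
        exact Prod.ext h2 h1
    rw [h1]
    let colL : Lf K N cap B → Fin K := fun l => Sum.elim (fun ai => (q ai).1.1.2)
      (fun y => y.1.1.2) l
    let colR : Rt K N cap B → Fin K := fun r => Sum.elim (fun y => y.1.1.2) (fun z => z.1) r
    have hcol : ∀ l, colR (f l) = colL l := by
      rintro (ai | ⟨p, j⟩)
      · rw [hq1]
        rfl
      · have := hfr (Sum.inr (p, j))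
        rcases hy : f (Sum.inr (p, j)) with y | y
        · rw [hy] at this
          have h2 : y.1 = p := this
          change y.1.1.2 = p.1.2
          rw [h2]
        · rw [hy] at this
          have h2 : p.1.2 = y.1 := this
          change y.1 = p.1.2
          exact h2.symm
    have hc : (Finset.univ.filter fun l => colL l = b).card =
        (Finset.univ.filter fun r => colR r = b).card := by
      apply Finset.card_bij (fun l _ => f l)
      · intro l hl
        rw [Finset.mem_filter] at hl ⊢
        exact ⟨Finset.mem_univ _, (hcol l).trans hl.2⟩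
      · intro l _ l' _ hll
        exact hf hll
      · intro r hr
        obtain ⟨l, rfl⟩ := hbij.2 r
        rw [Finset.mem_filter] at hr
        exact ⟨l, by rw [Finset.mem_filter]; exact ⟨Finset.mem_univ _, (hcol l).symm.trans hr.2⟩, rfl⟩
    rw [card_filter_sum, card_filter_sum] at hc
    have e1 : (Finset.univ.filter fun a => colL (Sum.inl a) = b) =
        (Finset.univ.filter fun ai => (q ai).1.1.2 = b) := rfl
    have e2 : (Finset.univ.filter fun y => colL (Sum.inr y) = b) =
        (Finset.univ.filter fun y => colR (Sum.inl y) = b) := rfl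
    have e3 : (Finset.univ.filter fun y => colR (Sum.inr y) = b).card = N := by
      have : (Finset.univ.filter fun y => colR (Sum.inr y) = b) =
          {b} ×ˢ (Finset.univ : Finset (Fin N)) := by
        ext z
        rw [Finset.mem_filter, Finset.mem_product, Finset.mem_singleton]
        simp [colR]
      rw [this, Finset.card_product, Finset.card_singleton, Finset.card_univ, Fintype.card_fin,
        one_mul]
    rw [e1, e2, e3] at hc
    omega

end Flow

/-- a regular integer matrix is a sum of permutation matrices -/
theorem decompose {K : ℕ} (N : ℕ) : ∀ x : Fin K × Fin K → ℕ, (∀ a, ∑ b, x (a, b) = N) →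
    (∀ b, ∑ a, x (a, b) = N) → ∃ τ : Fin N → Equiv.Perm (Fin K),
      ∀ p : Fin K × Fin K, (Finset.univ.filter fun i => τ i p.1 = p.2).card = x p := by
  classical
  induction N with
  | zero =>
    intro x hr _
    refine ⟨Fin.elim0, ?_⟩
    rintro ⟨a, b⟩
    have := hr a
    rw [Finset.sum_eq_zero_iff] at this
    rw [this b (Finset.mem_univ _)]
    simp
  | succ N ih =>
    intro x hr hc
    have hall : ∀ S : Finset (Fin K), S.card ≤
        (S.biUnion fun a => Finset.univ.filter fun b => 0 < x (a, b)).card := by
      intro S
      set T := S.biUnion fun a => Finset.univ.filter fun b => 0 < x (a, b) with hT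
      have h1 : ∑ a ∈ S, ∑ b, x (a, b) = S.card * (N + 1) := by
        rw [Finset.sum_congr rfl (fun a _ => hr a), Finset.sum_const, smul_eq_mul]
      have h2 : ∑ a ∈ S, ∑ b, x (a, b) = ∑ a ∈ S, ∑ b ∈ T, x (a, b) := by
        apply Finset.sum_congr rfl
        intro a ha
        symm
        apply Finset.sum_subset (Finset.subset_univ T)
        intro b _ hb
        by_contra hne
        apply hb
        rw [hT, Finset.mem_biUnion]
        exact ⟨a, ha, Finset.mem_filter.2 ⟨Finset.mem_univ _, Nat.pos_of_ne_zero hne⟩⟩
      have h3 : ∑ a ∈ S, ∑ b ∈ T, x (a, b) ≤ T.card * (N + 1) := by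
        rw [Finset.sum_comm]
        calc ∑ b ∈ T, ∑ a ∈ S, x (a, b) ≤ ∑ b ∈ T, ∑ a, x (a, b) := by
              apply Finset.sum_le_sum
              intro b _
              exact Finset.sum_le_sum_of_subset (Finset.subset_univ S)
          _ = T.card * (N + 1) := by
              rw [Finset.sum_congr rfl (fun b _ => hc b), Finset.sum_const, smul_eq_mul]
      rw [h1] at h2
      rw [← h2] at h3
      exact Nat.le_of_mul_le_mul_right h3 (Nat.succ_pos N)
    obtain ⟨g, hg, hgA⟩ := (Finset.all_card_le_biUnion_card_iff_exists_injective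
      fun a => Finset.univ.filter fun b => 0 < x (a, b)).1 hall
    let π : Equiv.Perm (Fin K) := Equiv.ofBijective g (Finite.injective_iff_bijective.mp hg)
    have hπ : ∀ a, 0 < x (a, π a) := fun a => (Finset.mem_filter.1 (hgA a)).2
    let y : Fin K × Fin K → ℕ := fun p => x p - if π p.1 = p.2 then 1 else 0
    have hxy : ∀ p, x p = y p + if π p.1 = p.2 then 1 else 0 := by
      intro p
      simp only [y]
      split_ifs with h
      · have := hπ p.1
        rw [h] at this
        have h2 : 0 < x p := this
        omega
      · omega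
    have hr' : ∀ a, ∑ b, y (a, b) = N := by
      intro a
      have h1 := hr a
      rw [Finset.sum_congr rfl (fun b _ => hxy (a, b)), Finset.sum_add_distrib] at h1
      have h2 : ∑ b, (if π a = b then 1 else 0) = 1 := by
        rw [Finset.sum_ite_eq]
        simp
      simp only at h1
      rw [h2] at h1
      omega
    have hc' : ∀ b, ∑ a, y (a, b) = N := by
      intro b
      have h1 := hc b
      rw [Finset.sum_congr rfl (fun a _ => hxy (a, b)), Finset.sum_add_distrib] at h1
      have h2 : ∑ a, (if π a = b then 1 else 0) = 1 := by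
        rw [← Finset.card_filter, Finset.card_eq_one]
        refine ⟨π⁻¹ b, ?_⟩
        ext a
        simp only [Finset.mem_filter, Finset.mem_univ, true_and, Finset.mem_singleton]
        constructor
        · intro h
          rw [← h]
          simp
        · intro h
          rw [h]
          simp
      simp only at h1
      rw [h2] at h1
      omega
    obtain ⟨τ, hτ⟩ := ih y hr' hc'
    refine ⟨Fin.cons π τ, ?_⟩
    intro p
    rw [hxy p, ← hτ p, Finset.card_filter, Finset.card_filter, Fin.sum_univ_succ]
    simp only [Fin.cons_zero, Fin.cons_succ]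
    ring

end Pool.Agent.H24.LP.Nib
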