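import Pool.Agent.H24.LP.Nib.Fix

/-!
# Laws on perfect matchings of a robust bipartite graph
-/

namespace Pool.Agent.H24.LP.Nib

open Finset

set_option linter.unusedSectionVars false

/-- a law on the perfect matchings inside `B` whose number of hits is controlled for every set of
cells -/
def Good (K n : ℕ) (lam z c : ℝ) (B : Finset (Fin K × Fin K)) : Prop :=
  ∃ F : Fin n → Equiv.Perm (Fin K), (∀ w a, (a, F w a) ∈ B) ∧
    ∀ (A : Finset (Fin K × Fin K)) (s : ℝ), 0 ≤ s → s ≤ lam →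
      ∑ w, Real.exp (s * hits (F w) A) ≤ n * Real.exp (s * (c * A.card + z * K))

lemma hits_eq {K : ℕ} (π : Equiv.Perm (Fin K)) (A : Finset (Fin K × Fin K)) :
    hits π A = (A.filter fun p => π p.1 = p.2).card := by
  unfold hits
  apply Finset.card_bij (fun a _ => (a, π a))
  · intro a ha
    rw [Finset.mem_filter] at ha ⊢
    exact ⟨ha.2, rfl⟩
  · intro a _ b _ h
    exact (Prod.ext_iff.1 h).1
  · rintro ⟨a, b⟩ h
    rw [Finset.mem_filter] at h
    obtain ⟨h1, h2⟩ := h
    simp only at h2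
    refine ⟨a, ?_, ?_⟩
    · rw [Finset.mem_filter]
      refine ⟨Finset.mem_univ _, ?_⟩
      rw [h2]
      exact h1
    · rw [h2]

lemma sum_hits {K N : ℕ} (τ : Fin N → Equiv.Perm (Fin K)) (x : Fin K × Fin K → ℕ)
    (hx : ∀ p : Fin K × Fin K, (Finset.univ.filter fun i => τ i p.1 = p.2).card = x p)
    (A : Finset (Fin K × Fin K)) : ∑ i, hits (τ i) A = ∑ p ∈ A, x p := by
  rw [Finset.sum_congr rfl (fun i _ => hits_eq (τ i) A)]
  simp only [Finset.card_filter]
  rw [Finset.sum_comm]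
  apply Finset.sum_congr rfl
  intro p _
  rw [← hx p, Finset.card_filter]

theorem good_of_robust {K M r k L t : ℕ} {δ ζ C : ℝ} (B : Finset (Fin K × Fin K)) (hK : 0 < K)
    (hC : 0 < C) (hδ : 0 < δ) (hζ : 0 < ζ) (hζ4 : ζ ≤ 4) (hM : 1 + δ ≤ δ * (C * M))
    (hr1 : 1 ≤ r) (hr : r ^ 4 ≤ K) (hk : 2 ^ k ≤ r) (hL1 : 1 ≤ L) (hrL : 8 * (L : ℝ) ≤ ζ * r)
    (hLt : K ≤ L * (t + 1) + 1)
    (hB : ∀ S T : Finset (Fin K), S.Nonempty → T.Nonempty → K ≤ S.card + T.card + t →
      (rect B S T).Nonempty)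
    (hflow : ∀ S T : Finset (Fin K), K < S.card + T.card →
      (1 + δ) * (K / C) * ((S.card : ℝ) + T.card - K) ≤ (rect B S T).card) :
    Good K (num (K * M) K k) (ζ * 2 ^ k / (4 * K)) ζ (C / K) B := by
  classical
  have hKr : (0 : ℝ) < K := by exact_mod_cast hK
  have hMpos : 0 < M := by
    rcases Nat.eq_zero_or_pos M with h | h
    · rw [h] at hM
      simp at hM
      linarith
    · exact h
  have hMr : (0 : ℝ) < M := by exact_mod_cast hMpos
  have hrr : (0 : ℝ) < r := by exact_mod_cast hr1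
  -- the flow
  set cap := ⌊C * M⌋₊ with hcap
  have hcap1 : (cap : ℝ) ≤ C * M := Nat.floor_le (by positivity)
  have hcap2 : C * M - 1 < cap := Nat.sub_one_lt_floor _
  have hcap3 : C * M ≤ (1 + δ) * cap := by nlinarith
  obtain ⟨x, hx1, hx2, hx3, hx4⟩ := flow (N := K * M) (cap := cap) B (by
    intro S T
    by_cases h : S.card + T.card ≤ K
    · calc K * M * (S.card + T.card) ≤ K * M * K := Nat.mul_le_mul_left _ h
        _ ≤ _ := Nat.le_add_right _ _
    · push Not at h
      have h1 := hflow S T h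
      have h0 : (0 : ℝ) ≤ (S.card : ℝ) + T.card - K := by
        have : (K : ℝ) < S.card + T.card := by exact_mod_cast h
        linarith
      have h2 : (K * M : ℝ) * ((S.card : ℝ) + T.card - K) ≤ cap * (rect B S T).card := by
        calc (K * M : ℝ) * ((S.card : ℝ) + T.card - K)
            = C * M * ((K / C) * ((S.card : ℝ) + T.card - K)) := by
              field_simp
          _ ≤ (1 + δ) * cap * ((K / C) * ((S.card : ℝ) + T.card - K)) :=
              mul_le_mul_of_nonneg_right hcap3 (by positivity)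
          _ = cap * ((1 + δ) * (K / C) * ((S.card : ℝ) + T.card - K)) := by ring
          _ ≤ cap * (rect B S T).card := mul_le_mul_of_nonneg_left h1 (Nat.cast_nonneg _)
      have h3 : ((K * M * (S.card + T.card) : ℕ) : ℝ) ≤
          ((K * M * K + cap * (rect B S T).card : ℕ) : ℝ) := by
        push_cast
        linarith
      exact_mod_cast h3)
  obtain ⟨τ, hτ⟩ := decompose (K * M) x hx3 hx4
  have hτB : ∀ i a, (a, τ i a) ∈ B := by
    intro i a
    by_contra hcon
    have h1 := hx2 _ hcon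
    rw [← hτ, Finset.card_eq_zero] at h1
    have h2 : i ∈ (Finset.univ.filter fun i => τ i (a, τ i a).1 = (a, τ i a).2) → False := by
      intro h
      have h3 : (Finset.univ.filter fun j => τ j a = τ i a) = ∅ := h1
      have h4 : i ∈ (Finset.univ.filter fun j => τ j a = τ i a) := by
        rw [Finset.mem_filter]
        exact ⟨Finset.mem_univ _, rfl⟩
      rw [h3] at h4
      exact absurd h4 (Finset.notMem_empty _)
    exact h2 (by rw [Finset.mem_filter]; exact ⟨Finset.mem_univ _, rfl⟩)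
  -- the sampler
  have hg1 : 1 ≤ r ^ 2 := Nat.one_le_pow _ _ hr1
  obtain ⟨F, hF1, hF2⟩ := sampler (r ^ 2) hg1 B τ hτB k
  have hfix := fun w => fix_all B t hB (F w) L hLt hL1
  choose G hG1 hG2 using hfix
  refine ⟨G, hG1, ?_⟩
  intro A s hs0 hs
  have h2kr : (2 : ℝ) ^ k ≤ r := by exact_mod_cast hk
  have hr4 : (r : ℝ) ^ 4 ≤ K := by exact_mod_cast hr
  have h2k : (0 : ℝ) < 2 ^ k := by positivity
  have hr1' : (1 : ℝ) ≤ r := by exact_mod_cast hr1
  have hkr : (k : ℝ) ≤ r := by
    have : k < 2 ^ k := Nat.lt_two_pow_self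
    exact_mod_cast (this.le.trans hk)
  set m : ℝ := min (C / K * A.card) K with hm
  have hmom := hF2 A s m hs0 (by
    calc s * K ≤ ζ * 2 ^ k / (4 * K) * K := mul_le_mul_of_nonneg_right hs hKr.le
      _ = ζ / 4 * 2 ^ k := by field_simp
      _ ≤ 1 * 2 ^ k := by
          apply mul_le_mul_of_nonneg_right _ h2k.le
          linarith
      _ = 2 ^ k := one_mul _) (by
    have h1 : (∑ i, (hits (τ i) A : ℝ)) = ((∑ p ∈ A, x p : ℕ) : ℝ) := by
      rw [← sum_hits τ x hτ A]
      push_cast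
      rfl
    have h2 : ((∑ p ∈ A, x p : ℕ) : ℝ) ≤ cap * A.card := by
      have : ∑ p ∈ A, x p ≤ A.card * cap := by
        calc ∑ p ∈ A, x p ≤ ∑ _p ∈ A, cap := Finset.sum_le_sum fun p _ => hx1 p
          _ = A.card * cap := by rw [Finset.sum_const, smul_eq_mul]
      have h3 : ((∑ p ∈ A, x p : ℕ) : ℝ) ≤ ((A.card * cap : ℕ) : ℝ) := by exact_mod_cast this
      push_cast at h3 ⊢
      linarith
    have h3 : (∑ i, (hits (τ i) A : ℝ)) ≤ ((K * M : ℕ) : ℝ) * K := by
      calc (∑ i, (hits (τ i) A : ℝ)) ≤ ∑ _i : Fin (K * M), (K : ℝ) := by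
            apply Finset.sum_le_sum
            intro i _
            exact_mod_cast hits_le _ _
        _ = ((K * M : ℕ) : ℝ) * K := by
            rw [Finset.sum_const, Finset.card_univ, Fintype.card_fin, nsmul_eq_mul]
    rw [hm, mul_min_of_nonneg _ _ (Nat.cast_nonneg _)]
    refine le_min ?_ h3
    rw [h1]
    refine h2.trans ?_
    calc (cap : ℝ) * A.card ≤ C * M * A.card :=
          mul_le_mul_of_nonneg_right hcap1 (Nat.cast_nonneg _)
      _ = ((K * M : ℕ) : ℝ) * (C / K * A.card) := by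
          push_cast
          field_simp) (min_le_right _ _)
  have hstep : ∀ w, Real.exp (s * hits (G w) A) ≤
      Real.exp (s * (ζ / 4 * K)) * Real.exp (s * hits (F w) A) := by
    intro w
    rw [← Real.exp_add, Real.exp_le_exp]
    have h1 : (hits (G w) A : ℝ) ≤ hits (F w) A + ((bad B (F w)).card * L : ℕ) := by
      exact_mod_cast (hits_le_add (G w) (F w) A).trans (Nat.add_le_add_left (hG2 w) _)
    have h2 : ((r : ℝ) ^ 2) * (bad B (F w)).card ≤ 2 ^ k * (2 * K) := by
      have := hF1 w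
      have h3 : (r ^ 2) * (bad B (F w)).card ≤ 2 ^ k * (2 * K) := by omega
      exact_mod_cast h3
    have h3 : (bad B (F w)).card * (L : ℝ) ≤ ζ / 4 * K := by
      have h4 : (r : ℝ) ^ 2 * ((bad B (F w)).card * (L : ℝ)) ≤ (r : ℝ) ^ 2 * (ζ / 4 * K) := by
        calc (r : ℝ) ^ 2 * ((bad B (F w)).card * (L : ℝ))
            = ((r : ℝ) ^ 2 * (bad B (F w)).card) * L := by ring
          _ ≤ ((2 : ℝ) ^ k * (2 * K)) * L := mul_le_mul_of_nonneg_right h2 (Nat.cast_nonneg _)
          _ ≤ ((r : ℝ) * (2 * K)) * L := by gcongr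
          _ = (8 * (L : ℝ)) * (r * K / 4) := by ring
          _ ≤ (ζ * r) * (r * K / 4) := mul_le_mul_of_nonneg_right hrL (by positivity)
          _ = (r : ℝ) ^ 2 * (ζ / 4 * K) := by ring
      exact le_of_mul_le_mul_left h4 (by positivity)
    push_cast at h1
    have h5 : (hits (G w) A : ℝ) ≤ ζ / 4 * K + hits (F w) A := by linarith
    calc s * (hits (G w) A : ℝ) ≤ s * (ζ / 4 * K + hits (F w) A) :=
          mul_le_mul_of_nonneg_left h5 hs0
      _ = s * (ζ / 4 * K) + s * hits (F w) A := by ring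
  calc ∑ w, Real.exp (s * hits (G w) A)
      ≤ ∑ w, Real.exp (s * (ζ / 4 * K)) * Real.exp (s * hits (F w) A) :=
        Finset.sum_le_sum fun w _ => hstep w
    _ = Real.exp (s * (ζ / 4 * K)) * ∑ w, Real.exp (s * hits (F w) A) := by
        rw [Finset.mul_sum]
    _ ≤ Real.exp (s * (ζ / 4 * K)) * ((num (K * M) K k) * Real.exp (s * (m + s * K ^ 2 / 2 ^ k +
          s * ((r ^ 2 : ℕ) : ℝ) * K / 4 + k * (2 * K / ((r ^ 2 : ℕ) : ℝ))))) :=
        mul_le_mul_of_nonneg_left hmom (Real.exp_pos _).le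
    _ = (num (K * M) K k) * (Real.exp (s * (ζ / 4 * K)) * Real.exp (s * (m + s * K ^ 2 / 2 ^ k +
          s * ((r ^ 2 : ℕ) : ℝ) * K / 4 + k * (2 * K / ((r ^ 2 : ℕ) : ℝ))))) := by ring
    _ ≤ _ := by
        apply mul_le_mul_of_nonneg_left _ (Nat.cast_nonneg _)
        rw [← Real.exp_add, Real.exp_le_exp, ← mul_add]
        apply mul_le_mul_of_nonneg_left _ hs0
        have e1 : m ≤ C / K * A.card := min_le_left _ _
        have e2 : s * K ^ 2 / 2 ^ k ≤ ζ / 4 * K := by
          rw [div_le_iff₀ h2k]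
          calc s * (K : ℝ) ^ 2 ≤ ζ * 2 ^ k / (4 * K) * K ^ 2 :=
                mul_le_mul_of_nonneg_right hs (by positivity)
            _ = ζ / 4 * K * 2 ^ k := by field_simp
        have e3 : s * ((r ^ 2 : ℕ) : ℝ) * K / 4 ≤ ζ / 16 * K := by
          push_cast
          have h1 : s * (r : ℝ) ^ 2 * K / 4 ≤ ζ * 2 ^ k / (4 * K) * r ^ 2 * K / 4 := by gcongr
          refine h1.trans ?_
          have h2 : ζ * 2 ^ k / (4 * (K : ℝ)) * r ^ 2 * K / 4 = ζ / 16 * (2 ^ k * r ^ 2) := by
            field_simp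
            ring
          rw [h2]
          apply mul_le_mul_of_nonneg_left _ (by positivity)
          calc (2 : ℝ) ^ k * r ^ 2 ≤ (r : ℝ) * r ^ 2 := by gcongr
            _ = (r : ℝ) ^ 3 * 1 := by ring
            _ ≤ (r : ℝ) ^ 3 * r := by gcongr
            _ = (r : ℝ) ^ 4 := by ring
            _ ≤ K := hr4
        have e4 : k * (2 * K / ((r ^ 2 : ℕ) : ℝ)) ≤ ζ / 4 * K := by
          push_cast
          rw [← mul_div_assoc, div_le_iff₀ (by positivity)]
          have hL1' : (1 : ℝ) ≤ L := by exact_mod_cast hL1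
          calc (k : ℝ) * (2 * K) ≤ (r : ℝ) * (2 * K) := by gcongr
            _ = 8 * 1 * ((r : ℝ) * K / 4) := by ring
            _ ≤ 8 * (L : ℝ) * (r * K / 4) := by gcongr
            _ ≤ ζ * r * (r * K / 4) := mul_le_mul_of_nonneg_right hrL (by positivity)
            _ = ζ / 4 * K * r ^ 2 := by ring
        have e5 : 0 ≤ ζ * K := by positivity
        linarith

end Pool.Agent.H24.LP.Nib
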