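import Pool.Agent.H24.LP.Nib.Robust
import Pool.Agent.H24.LP.Find

/-!
# The key lemma: extension of a packing along an order
-/

namespace Pool.Agent.H24.LP.Nib

open Finset

set_option linter.unusedSectionVars false

variable {V : Type} [Fintype V] [DecidableEq V] {K : ℕ} (G : SimpleGraph V)
  (σ : V → V → Equiv.Perm (Fin K))

/-- the cells available to `v` -/
noncomputable def Al (Q : Finset V) (π : V → Equiv.Perm (Fin K)) (v : V) :
    Finset (Fin K × Fin K) :=
  Finset.univ.filter fun x => ∀ w ∈ nb G Q v, σ w v (π w x.1) ≠ x.2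

lemma mem_Al {Q : Finset V} {π : V → Equiv.Perm (Fin K)} {v : V} {x : Fin K × Fin K} :
    x ∈ Al G σ Q π v ↔ ∀ w ∈ nb G Q v, σ w v (π w x.1) ≠ x.2 := by
  unfold Al
  simp

lemma Al_rows (Q : Finset V) (π : V → Equiv.Perm (Fin K)) (v : V) (x : Fin K) :
    K ≤ (Finset.univ.filter fun c => (x, c) ∈ Al G σ Q π v).card + (nb G Q v).card := by
  classical
  have h1 := card_forb (nb G Q v) (fun w c => σ w v (π w x) = c)
    (fun w c c' h h' => h.symm.trans h')
  have h2 : (Finset.univ.filter fun c => (x, c) ∈ Al G σ Q π v).card +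
      (Finset.univ.filter fun c => ¬ (x, c) ∈ Al G σ Q π v).card = K := by
    rw [Finset.card_filter_add_card_filter_not, Finset.card_univ, Fintype.card_fin]
  have h3 : (Finset.univ.filter fun c => ¬ (x, c) ∈ Al G σ Q π v).card ≤
      (Finset.univ.filter fun c => ∃ w ∈ nb G Q v, σ w v (π w x) = c).card := by
    apply Finset.card_le_card
    intro c hc
    rw [Finset.mem_filter, mem_Al] at hc
    push Not at hc
    rw [Finset.mem_filter]
    exact hc
  omega

lemma Al_cols (Q : Finset V) (π : V → Equiv.Perm (Fin K)) (v : V) (c : Fin K) :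
    K ≤ (Finset.univ.filter fun x => (x, c) ∈ Al G σ Q π v).card + (nb G Q v).card := by
  classical
  have h1 := card_forb (nb G Q v) (fun w x => σ w v (π w x) = c)
    (fun w x x' h h' => (π w).injective ((σ w v).injective (h.trans h'.symm)))
  have h2 : (Finset.univ.filter fun x => (x, c) ∈ Al G σ Q π v).card +
      (Finset.univ.filter fun x => ¬ (x, c) ∈ Al G σ Q π v).card = K := by
    rw [Finset.card_filter_add_card_filter_not, Finset.card_univ, Fintype.card_fin]
  have h3 : (Finset.univ.filter fun x => ¬ (x, c) ∈ Al G σ Q π v).card ≤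
      (Finset.univ.filter fun x => ∃ w ∈ nb G Q v, σ w v (π w x) = c).card := by
    apply Finset.card_le_card
    intro x hx
    rw [Finset.mem_filter, mem_Al] at hx
    push Not at hx
    rw [Finset.mem_filter]
    exact hx
  omega

lemma nb_insert_adj {Q : Finset V} {u v : V} (h : G.Adj v u) :
    nb G (insert u Q) v = insert u (nb G Q v) := by
  ext x
  rw [mem_nb, Finset.mem_insert, Finset.mem_insert, mem_nb]
  constructor
  · rintro ⟨rfl | h1, h2⟩
    · exact Or.inl rfl
    · exact Or.inr ⟨h1, h2⟩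
  · rintro (rfl | h1)
    · exact ⟨Or.inl rfl, h⟩
    · exact ⟨Or.inr h1.1, h1.2⟩

lemma nb_insert_nadj {Q : Finset V} {u v : V} (h : ¬ G.Adj v u) :
    nb G (insert u Q) v = nb G Q v := by
  ext x
  rw [mem_nb, Finset.mem_insert, mem_nb]
  constructor
  · rintro ⟨rfl | h1, h2⟩
    · exact absurd h2 h
    · exact ⟨h1, h2⟩
  · rintro ⟨h1, h2⟩
    exact ⟨Or.inr h1, h2⟩

lemma Al_insert_adj {Q : Finset V} {π : V → Equiv.Perm (Fin K)} {u v : V} (hu : u ∉ Q)
    (h : G.Adj v u) (p : Equiv.Perm (Fin K)) :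
    Al G σ (insert u Q) (Function.update π u p) v = cut (Al G σ Q π v) (σ u v * p) := by
  ext x
  unfold cut
  rw [mem_Al, Finset.mem_filter, mem_Al, nb_insert_adj G h]
  have hne : ∀ w ∈ nb G Q v, w ≠ u := by
    intro w hw hwu
    rw [mem_nb] at hw
    exact hu (hwu ▸ hw.1)
  constructor
  · intro h1
    constructor
    · intro w hw
      have := h1 w (Finset.mem_insert_of_mem hw)
      rwa [Function.update_of_ne (hne w hw)] at this
    · have := h1 u (Finset.mem_insert_self _ _)
      rwa [Function.update_self] at this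
  · rintro ⟨h1, h2⟩ w hw
    rw [Finset.mem_insert] at hw
    rcases hw with rfl | hw
    · rw [Function.update_self]
      exact h2
    · rw [Function.update_of_ne (hne w hw)]
      exact h1 w hw

lemma Al_insert_nadj {Q : Finset V} {π : V → Equiv.Perm (Fin K)} {u v : V} (hu : u ∉ Q)
    (h : ¬ G.Adj v u) (p : Equiv.Perm (Fin K)) :
    Al G σ (insert u Q) (Function.update π u p) v = Al G σ Q π v := by
  ext x
  rw [mem_Al, mem_Al, nb_insert_nadj G h]
  have hne : ∀ w ∈ nb G Q v, w ≠ u := by
    intro w hw hwu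
    rw [mem_nb] at hw
    exact hu (hwu ▸ hw.1)
  constructor
  · intro h1 w hw
    have := h1 w hw
    rwa [Function.update_of_ne (hne w hw)] at this
  · intro h1 w hw
    rw [Function.update_of_ne (hne w hw)]
    exact h1 w hw

/-- the expected proportion of surviving cells -/
noncomputable def PP (cap : V → ℝ) (K : ℕ) (Q : Finset V) (v : V) : ℝ :=
  ∏ u ∈ nb G Q v, (1 - cap u / K)

lemma num_pos {N : ℕ} (hN : 0 < N) (K : ℕ) (k : ℕ) : 0 < num N K k := by
  induction k with
  | zero => exact hN
  | succ k ih =>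
    unfold num
    positivity

/-- a small potential gives many cells in every rectangle -/
lemma rect_of_pot {D k m : ℕ} {C ν ζ q lam l Bs : ℝ} (hK : 0 < K) (hC : 1 ≤ C) (hζ : 0 < ζ)
    (hζν : 2 * C * ζ ≤ ν) (hD : 1 ≤ D) (hlog : 8 * C * Real.log (4 * D) ≤ ν * ζ * 2 ^ k)
    (hlam : lam = ζ * 2 ^ k / (4 * (K : ℝ))) (hl : l = lam / C)
    (hBs : Bs = D * Real.exp (lam * ζ * K)) (hq : 0 < q) (hm : m ≤ K)
    (e0 : Finset (Fin K) → Finset (Fin K) → ℝ) (B : Finset (Fin K × Fin K))
    (hpot : pot l e0 q B ≤ 4 ^ K * Bs ^ m) (S T : Finset (Fin K)) :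
    q * (e0 S T - ν * K ^ 2) ≤ (rect B S T).card := by
  have hKr : (0 : ℝ) < K := by exact_mod_cast hK
  have hCpos : 0 < C := by linarith
  have hDr : (1 : ℝ) ≤ D := by exact_mod_cast hD
  have hlam0 : 0 < lam := by
    rw [hlam]
    positivity
  have hl0 : 0 < l := by
    rw [hl]
    positivity
  have hBs1 : 1 ≤ Bs := by
    have : 1 ≤ Real.exp (lam * ζ * K) := Real.one_le_exp (by positivity)
    rw [hBs]
    nlinarith
  have h1 : Real.exp (l * (e0 S T - (rect B S T).card / q)) ≤ 4 ^ K * Bs ^ K := by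
    calc Real.exp (l * (e0 S T - (rect B S T).card / q))
        ≤ pot l e0 q B := by
          unfold pot
          exact Finset.single_le_sum
            (f := fun x : Finset (Fin K) × Finset (Fin K) => Real.exp (l * (e0 x.1 x.2 -
              ((rect B x.1 x.2).card : ℝ) / q)))
            (fun x _ => (Real.exp_pos _).le) (Finset.mem_univ (S, T))
      _ ≤ 4 ^ K * Bs ^ m := hpot
      _ ≤ 4 ^ K * Bs ^ K := by
          apply mul_le_mul_of_nonneg_left _ (by positivity)
          exact pow_le_pow_right₀ hBs1 hm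
  have h3 : (4 : ℝ) ^ K * Bs ^ K = Real.exp (K * Real.log (4 * D) + K * (lam * ζ * K)) := by
    rw [Real.exp_add, Real.exp_nat_mul, Real.exp_nat_mul, Real.exp_log (by positivity), hBs,
      mul_pow, mul_pow]
    ring
  rw [h3, Real.exp_le_exp] at h1
  generalize ((rect B S T).card : ℝ) = E at *
  generalize e0 S T = e at *
  have h5 : K * Real.log (4 * D) ≤ l * (ν * K ^ 2) / 2 := by
    rw [hl, hlam]
    have h6 : ζ * 2 ^ k / (4 * (K : ℝ)) / C * (ν * K ^ 2) / 2 =
        K * (ν * ζ * 2 ^ k / (8 * C)) := by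
      field_simp
      ring
    rw [h6]
    apply mul_le_mul_of_nonneg_left _ hKr.le
    rw [le_div_iff₀ (by positivity)]
    linarith
  have h7 : K * (lam * ζ * K) ≤ l * (ν * K ^ 2) / 2 := by
    rw [hl]
    have h8 : lam / C * (ν * (K : ℝ) ^ 2) / 2 = K * (lam * (ν / (2 * C)) * K) := by
      field_simp
    rw [h8]
    apply mul_le_mul_of_nonneg_left _ hKr.le
    apply mul_le_mul_of_nonneg_right _ hKr.le
    apply mul_le_mul_of_nonneg_left _ hlam0.le
    rw [le_div_iff₀ (by positivity)]
    linarith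
  have h9 : e - E / q ≤ ν * K ^ 2 := by
    have : l * (e - E / q) ≤ l * (ν * K ^ 2) := by linarith
    exact le_of_mul_le_mul_left this hl0
  have h10 : q * (e - E / q) ≤ q * (ν * K ^ 2) := mul_le_mul_of_nonneg_left h9 hq.le
  have h11 : q * (e - E / q) = q * e - E := by field_simp
  rw [h11] at h10
  linarith

/-- the expected change of the potential -/
lemma law_step {n : ℕ} {C ζ q c lam l : ℝ} (hC : 1 ≤ C) (hlam0 : 0 < lam) (hζ : 0 < ζ)
    (hl : l = lam / C) (hq : 0 < q) (hc : c < 1) (hqC : 1 ≤ q * (1 - c) * C)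
    {F : Fin n → Equiv.Perm (Fin K)} (hF : Mom K n lam ζ c F) (τ : Equiv.Perm (Fin K))
    (e0 : Finset (Fin K) → Finset (Fin K) → ℝ) (B : Finset (Fin K × Fin K)) :
    ∑ w, pot l e0 (q * (1 - c)) (cut B (τ * F w)) ≤
      n * (Real.exp (lam * ζ * K) * pot l e0 q B) := by
  have hCpos : 0 < C := by linarith
  have hq'0 : 0 < q * (1 - c) := mul_pos hq (by linarith)
  have hl0 : 0 ≤ l := by
    rw [hl]
    positivity
  refine (step (mom_mul hF τ) hl0 hq hc (by
    rw [div_le_iff₀ hq'0, hl, div_le_iff₀ hCpos]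
    have : lam * 1 ≤ lam * (q * (1 - c) * C) := mul_le_mul_of_nonneg_left hqC hlam0.le
    linarith) e0 B).trans ?_
  apply mul_le_mul_of_nonneg_left _ (Nat.cast_nonneg _)
  apply mul_le_mul_of_nonneg_right _ (pot_pos _ _ _ _).le
  rw [Real.exp_le_exp, div_le_iff₀ hq'0, hl]
  have h4 : lam / C * ζ * K = lam * ζ * K * (1 / C) := by ring
  rw [h4]
  apply mul_le_mul_of_nonneg_left _ (by positivity)
  rw [div_le_iff₀ hCpos]
  exact hqC

lemma pot_zero {l : ℝ} (e0 : Finset (Fin K) → Finset (Fin K) → ℝ) (B : Finset (Fin K × Fin K))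
    (h : ∀ S T, e0 S T = (rect B S T).card) : pot l e0 1 B = 4 ^ K := by
  unfold pot
  have h1 : ∀ x : Finset (Fin K) × Finset (Fin K),
      Real.exp (l * (e0 x.1 x.2 - ((rect B x.1 x.2).card : ℝ) / 1)) = 1 := by
    intro x
    rw [h x.1 x.2, div_one, sub_self, mul_zero, Real.exp_zero]
  rw [Finset.sum_congr rfl (fun x _ => h1 x), Finset.sum_const, Finset.card_univ,
    nsmul_eq_mul, mul_one, Fintype.card_prod, Fintype.card_finset, Fintype.card_fin]
  push_cast
  rw [← mul_pow]
  norm_num

variable {G σ} (hσ : ∀ u v, G.Adj u v → σ v u = (σ u v)⁻¹)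

include hσ

theorem key {r k D : ℕ} {C δ ν ζ : ℝ} (hK : 0 < K) (hC : 1 ≤ C) (hδ : 0 < δ)
    (hδ1 : δ ≤ 1) (hν0 : 0 < ν) (hν : 64 * C ^ 4 * ν ≤ δ) (hζ : 0 < ζ) (hζ4 : ζ ≤ 4)
    (hr1 : 1 ≤ r) (hr : r ^ 4 ≤ K) (hk : 2 ^ k ≤ r) (hrL : 8 * (⌈4 * C⌉₊ : ℝ) ≤ ζ * r)
    (hζν : 2 * C * ζ ≤ ν) (hD : 1 ≤ D) (hlog : 8 * C * Real.log (4 * D) ≤ ν * ζ * 2 ^ k)
    (hKC : C < K) (W R : Finset V) (hWR : Disjoint W R) (π0 : V → Equiv.Perm (Fin K))
    (hval : ValidK G σ W π0) (rk : V → ℕ) (hrk : ∀ x ∈ R, ∀ y ∈ R, rk x = rk y → x = y)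
    (cap a : V → ℝ)
    (hcap1 : ∀ v ∈ R, 1 ≤ cap v) (hcap : ∀ v ∈ R, cap v ≤ C)
    (hmain : ∀ v ∈ R, 1 + δ ≤ PP G cap K (R.filter fun u => rk u < rk v) v * a v * cap v)
    (hX : ∀ v ∈ R, 2 * C * (nb G W v).card + K ≤ C * K)
    (hb : ∀ v ∈ R, (1 + δ) * K ≤
      (K - ((nb G W v).card + (nb G (R.filter fun u => rk u < rk v) v).card : ℕ)) * cap v)
    (ha : ∀ v ∈ R, ∀ s u : ℕ, s ≤ u → u ≤ K → K ≤ s + u →
      a v * K * ((s : ℝ) + u - K) ≤ s * (u - (nb G W v).card))
    (hdeg : ∀ v ∈ R, (nb G R v).card ≤ D) :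
    ∃ ρ : V → Equiv.Perm (Fin K), ValidK G σ (W ∪ R) ρ ∧ ∀ w ∈ W, ρ w = π0 w := by
  classical
  have hKr : (0 : ℝ) < K := by exact_mod_cast hK
  have hCpos : 0 < C := by linarith
  have hDr : (1 : ℝ) ≤ D := by exact_mod_cast hD
  obtain ⟨lam, hlam⟩ : ∃ lam, lam = ζ * 2 ^ k / (4 * (K : ℝ)) := ⟨_, rfl⟩
  have hlam0 : 0 < lam := by
    rw [hlam]
    positivity
  obtain ⟨l, hl⟩ : ∃ l, l = lam / C := ⟨_, rfl⟩
  let Q : ℕ → Finset V := fun j => R.filter fun u => rk u < j
  have hQR : ∀ j, Q j ⊆ R := fun j => Finset.filter_subset _ _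
  obtain ⟨e0, he0⟩ : ∃ e0 : V → Finset (Fin K) → Finset (Fin K) → ℝ, ∀ v S T, e0 v S T =
      ((rect (Al G σ W π0 v) S T).card : ℝ) := ⟨fun v S T => _, fun _ _ _ => rfl⟩
  obtain ⟨Bs, hBs⟩ : ∃ Bs : ℝ, Bs = D * Real.exp (lam * ζ * K) := ⟨_, rfl⟩
  -- bounds on the products
  have hfac : ∀ u ∈ R, 0 < 1 - cap u / K ∧ 1 - cap u / K ≤ 1 := by
    intro u hu
    have h1 := hcap u hu
    have h2 := hcap1 u hu
    constructor
    · have : cap u / K < 1 := by
        rw [div_lt_one hKr]
        linarith
      linarith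
    · have : 0 ≤ cap u / K := by
        apply div_nonneg (by linarith) hKr.le
      linarith
  have hPpos : ∀ Q' ⊆ R, ∀ v, 0 < PP G cap K Q' v := by
    intro Q' hQ' v
    unfold PP
    apply Finset.prod_pos
    intro u hu
    rw [mem_nb] at hu
    exact (hfac u (hQ' hu.1)).1
  have hPle : ∀ Q' ⊆ R, ∀ v, PP G cap K Q' v ≤ 1 := by
    intro Q' hQ' v
    unfold PP
    apply Finset.prod_le_one
    · intro u hu
      rw [mem_nb] at hu
      exact (hfac u (hQ' hu.1)).1.le
    · intro u hu
      rw [mem_nb] at hu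
      exact (hfac u (hQ' hu.1)).2
  have ha1 : ∀ v ∈ R, a v ≤ 1 := by
    intro v hv
    have h1 := ha v hv K K le_rfl le_rfl (by omega)
    have h2 : (0 : ℝ) ≤ (nb G W v).card := Nat.cast_nonneg _
    have h3 : a v * K * K ≤ 1 * K * K := by nlinarith
    have h4 : a v * K ≤ 1 * K := le_of_mul_le_mul_right h3 hKr
    exact le_of_mul_le_mul_right h4 hKr
  have hPC : ∀ v ∈ R, ∀ j ≤ rk v, 1 ≤ PP G cap K (Q j) v * C := by
    intro v hv j hj
    have h1 := hmain v hv
    have hsub : Q j ⊆ Q (rk v) := by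
      intro u hu
      simp only [Q, Finset.mem_filter] at hu ⊢
      exact ⟨hu.1, lt_of_lt_of_le hu.2 hj⟩
    have h2 : PP G cap K (Q (rk v)) v ≤ PP G cap K (Q j) v := by
      unfold PP
      rw [← Finset.prod_sdiff (nb_mono (G := G) hsub v)]
      have h3 : ∏ u ∈ nb G (Q (rk v)) v \ nb G (Q j) v, (1 - cap u / K) ≤ 1 := by
        apply Finset.prod_le_one
        · intro u hu
          rw [Finset.mem_sdiff, mem_nb] at hu
          exact (hfac u (hQR _ hu.1.1)).1.le
        · intro u hu
          rw [Finset.mem_sdiff, mem_nb] at hu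
          exact (hfac u (hQR _ hu.1.1)).2
      have h4 : 0 < ∏ u ∈ nb G (Q j) v, (1 - cap u / K) := hPpos (Q j) (hQR j) v
      nlinarith
    have h5 := hPpos (Q (rk v)) (hQR _) v
    have h6 : PP G cap K (Q (rk v)) v * a v * cap v ≤ PP G cap K (Q (rk v)) v * C := by
      have h7 := ha1 v hv
      have h8 := hcap v hv
      have h9 := hcap1 v hv
      rw [mul_assoc]
      apply mul_le_mul_of_nonneg_left _ h5.le
      nlinarith
    have h10 : PP G cap K (Q (rk v)) v * C ≤ PP G cap K (Q j) v * C :=
      mul_le_mul_of_nonneg_right h2 hCpos.le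
    have h11 : 1 + δ ≤ PP G cap K (Q (rk v)) v * a v * cap v := h1
    linarith
  -- the induction
  have main : ∀ j : ℕ, ∃ ρ : V → Equiv.Perm (Fin K), ValidK G σ (W ∪ Q j) ρ ∧
      (∀ w ∈ W, ρ w = π0 w) ∧ ∀ v ∈ R, j ≤ rk v →
        pot l (e0 v) (PP G cap K (Q j) v) (Al G σ (W ∪ Q j) ρ v) ≤
          4 ^ K * Bs ^ (nb G (Q j) v).card := by
    intro j
    induction j with
    | zero =>
      have hQ0 : Q 0 = ∅ := by simp [Q]
      have hnb0 : ∀ v, nb G (∅ : Finset V) v = ∅ := by
        intro v
        ext x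
        rw [mem_nb]
        simp
      refine ⟨π0, by rw [hQ0, Finset.union_empty]; exact hval, fun _ _ => rfl, ?_⟩
      intro v _ _
      rw [hQ0, Finset.union_empty, hnb0, Finset.card_empty, pow_zero, mul_one]
      unfold PP
      rw [hnb0, Finset.prod_empty]
      exact (pot_zero (e0 v) _ (he0 v)).le
    | succ j ih =>
      obtain ⟨ρ, hρ1, hρ2, hρ3⟩ := ih
      by_cases hex : ∃ u ∈ R, rk u = j
      · obtain ⟨u, huR, huj⟩ := hex
        have huQ : u ∉ Q j := by
          simp only [Q, Finset.mem_filter, not_and, not_lt]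
          intro _
          exact huj.ge
        have huW : u ∉ W := fun h => (Finset.disjoint_left.1 hWR) h huR
        have huWQ : u ∉ W ∪ Q j := by
          rw [Finset.mem_union]
          tauto
        have hQs : Q (j + 1) = insert u (Q j) := by
          ext x
          simp only [Q, Finset.mem_filter, Finset.mem_insert]
          constructor
          · rintro ⟨h1, h2⟩
            rcases Nat.lt_succ_iff_lt_or_eq.1 h2 with h3 | h3
            · exact Or.inr ⟨h1, h3⟩
            · exact Or.inl (hrk x h1 u huR (h3.trans huj.symm))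
          · rintro (rfl | ⟨h1, h2⟩)
            · exact ⟨huR, by omega⟩
            · exact ⟨h1, by omega⟩
        have hWQs : W ∪ Q (j + 1) = insert u (W ∪ Q j) := by
          rw [hQs, Finset.union_insert]
        have hq0 : 0 < PP G cap K (Q j) u := hPpos (Q j) (hQR j) u
        have hpotu := hρ3 u huR huj.ge
        have hQu : (R.filter fun x => rk x < rk u) = Q j := by
          simp only [Q, huj]
        -- degrees
        have hbu := hb u huR
        rw [hQu] at hbu
        have hmu := hmain u huR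
        rw [hQu] at hmu
        have hsplit : (nb G (W ∪ Q j) u).card = (nb G W u).card + (nb G (Q j) u).card :=
          nb_split G (Finset.disjoint_of_subset_right (hQR j) hWR) u
        have hmK : (nb G (Q j) u).card ≤ K := by
          by_contra hcon
          push Not at hcon
          have h1 : (K : ℝ) < (nb G (Q j) u).card := by exact_mod_cast hcon
          have h2 := hcap1 u huR
          have h3 : (0 : ℝ) ≤ (nb G W u).card := Nat.cast_nonneg _
          push_cast at hbu
          have h4 : (K - ((nb G W u).card + (nb G (Q j) u).card : ℝ)) * cap u ≤ 0 := by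
            apply mul_nonpos_of_nonpos_of_nonneg <;> linarith
          nlinarith
        -- rectangles
        have hrect := rect_of_pot hK hC hζ hζν hD hlog hlam hl hBs hq0 hmK (e0 u)
          (Al G σ (W ∪ Q j) ρ u) hpotu
        -- the law
        obtain ⟨F, hF1, hF2⟩ := good_of_bounds (r := r) (k := k) (C := C) (δ := δ) (ν := ν)
          (ζ := ζ) (Cv := cap u) (a := a u) (P := PP G cap K (Q j) u) (X := (nb G W u).card)
          (b := (nb G W u).card + (nb G (Q j) u).card) hK hC hδ hδ1 hν0.le hν hζ hζ4 hr1 hr hk hrL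
          (Al G σ (W ∪ Q j) ρ u) (e0 u) (hcap1 u huR) (hcap u huR) hmu (hPle _ (hQR j) u)
          (hPC u huR j huj.ge) (hX u huR) hbu (ha u huR)
          (fun x => by rw [← hsplit]; exact Al_rows G σ _ _ _ _)
          (fun x => by rw [← hsplit]; exact Al_cols G σ _ _ _ _)
          (fun S T => by
            have h1 := rect_rows (Al G σ W π0 u) (Al_rows G σ W π0 u) S T
            have h2 : ((S.card * T.card : ℕ) : ℝ) ≤
                ((rect (Al G σ W π0 u) S T).card + S.card * (nb G W u).card : ℕ) := by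
              exact_mod_cast h1
            push_cast at h2
            rw [he0]
            linarith)
          (fun S T => by
            have h1 := rect_cols (Al G σ W π0 u) (Al_cols G σ W π0 u) S T
            have h2 : ((S.card * T.card : ℕ) : ℝ) ≤
                ((rect (Al G σ W π0 u) S T).card + T.card * (nb G W u).card : ℕ) := by
              exact_mod_cast h1
            push_cast at h2
            rw [he0]
            linarith)
          hrect
        rw [← hlam] at hF2
        have hnpos : 0 < num (K * (⌈2 / δ⌉₊ + 1)) K k := num_pos (by positivity) K k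
        generalize num (K * (⌈2 / δ⌉₊ + 1)) K k = n at *
        have hcu := hfac u huR
        generalize hc : cap u / (K : ℝ) = c at *
        -- later neighbours
        set J : Finset V := (nb G R u).filter fun v => j < rk v with hJ
        have hJR : ∀ v ∈ J, v ∈ R ∧ G.Adj u v ∧ j < rk v := by
          intro v hv
          rw [hJ, Finset.mem_filter, mem_nb] at hv
          exact ⟨hv.1.1, hv.1.2, hv.2⟩
        have hPs : ∀ v ∈ J, PP G cap K (Q (j + 1)) v = PP G cap K (Q j) v * (1 - c) := by
          intro v hv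
          obtain ⟨h1, h2, h3⟩ := hJR v hv
          unfold PP
          rw [hQs, nb_insert_adj G h2.symm, Finset.prod_insert (fun h4 => by
            rw [mem_nb] at h4
            exact huQ h4.1), hc, mul_comm]
        obtain ⟨w, hw⟩ := exists_outcome (D := D) hnpos J
          ((Finset.card_le_card (Finset.filter_subset _ _)).trans (hdeg u huR))
          (fun v w => pot l (e0 v) (PP G cap K (Q j) v * (1 - c))
            (cut (Al G σ (W ∪ Q j) ρ v) (σ u v * F w)))
          (fun v w => (pot_pos _ _ _ _).le)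
          (fun v => Real.exp (lam * ζ * K) *
            pot l (e0 v) (PP G cap K (Q j) v) (Al G σ (W ∪ Q j) ρ v))
          (fun v _ => mul_pos (Real.exp_pos _) (pot_pos _ _ _ _))
          (fun v hv => by
            obtain ⟨h1, h2, h3⟩ := hJR v hv
            refine law_step hC hlam0 hζ hl (hPpos _ (hQR j) v) (by linarith [hcu.1]) ?_ hF2
              (σ u v) (e0 v) (Al G σ (W ∪ Q j) ρ v)
            rw [← hPs v hv]
            exact hPC v h1 (j + 1) h3)
        refine ⟨Function.update ρ u (F w), ?_, ?_, ?_⟩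
        · rw [hWQs]
          apply validK_insert hσ hρ1 huWQ
          intro x hx i
          have h1 := hF1 w i
          rw [mem_Al] at h1
          exact h1 x hx
        · intro x hx
          rw [Function.update_of_ne (fun h => huW (by rw [← h]; exact hx))]
          exact hρ2 x hx
        · intro v hvR hvj
          have hvne : v ≠ u := by
            rintro rfl
            omega
          have hold := hρ3 v hvR (by omega)
          by_cases hadj : G.Adj v u
          · have hvJ : v ∈ J := by
              rw [hJ, Finset.mem_filter, mem_nb]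
              exact ⟨⟨hvR, hadj.symm⟩, by omega⟩
            rw [hWQs, Al_insert_adj G σ huWQ hadj, hPs v hvJ]
            refine (hw v hvJ).trans ?_
            rw [hQs, nb_insert_adj G hadj, Finset.card_insert_of_notMem (fun h => by
              rw [mem_nb] at h
              exact huQ h.1), pow_succ, hBs]
            rw [hBs] at hold
            calc (D : ℝ) * (Real.exp (lam * ζ * K) *
                  pot l (e0 v) (PP G cap K (Q j) v) (Al G σ (W ∪ Q j) ρ v))
                ≤ (D : ℝ) * (Real.exp (lam * ζ * K) * (4 ^ K *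
                    (D * Real.exp (lam * ζ * K)) ^ (nb G (Q j) v).card)) :=
                  mul_le_mul_of_nonneg_left (mul_le_mul_of_nonneg_left hold (Real.exp_pos _).le)
                    (Nat.cast_nonneg _)
              _ = 4 ^ K * ((D * Real.exp (lam * ζ * K)) ^ (nb G (Q j) v).card *
                    (D * Real.exp (lam * ζ * K))) := by ring
          · rw [hWQs, Al_insert_nadj G σ huWQ hadj, hQs]
            unfold PP
            rw [nb_insert_nadj G hadj]
            exact hold
      · have hQs : Q (j + 1) = Q j := by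
          ext x
          simp only [Q, Finset.mem_filter]
          constructor
          · rintro ⟨h1, h2⟩
            rcases Nat.lt_succ_iff_lt_or_eq.1 h2 with h3 | h3
            · exact ⟨h1, h3⟩
            · exact absurd ⟨x, h1, h3⟩ hex
          · rintro ⟨h1, h2⟩
            exact ⟨h1, by omega⟩
        rw [hQs]
        exact ⟨ρ, hρ1, hρ2, fun v hv hj => hρ3 v hv (by omega)⟩
  obtain ⟨ρ, h1, h2, -⟩ := main (∑ v, rk v + 1)
  have hQR' : Q (∑ v, rk v + 1) = R := by
    ext x
    simp only [Q, Finset.mem_filter, and_iff_left_iff_imp]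
    intro _
    have := Finset.single_le_sum (f := rk) (fun v _ => Nat.zero_le _) (Finset.mem_univ x)
    omega
  rw [hQR'] at h1
  exact ⟨ρ, h1, h2⟩

end Pool.Agent.H24.LP.Nib
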