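import Pool.Agent.H24.LP.Nib.Flow
import Pool.Agent.H24.LP.Basic

/-!
# Mixing two permutations
-/

namespace Pool.Agent.H24.LP.Nib

open Finset

set_option linter.unusedSectionVars false

/-- cutting the orbits of a permutation into pieces -/
theorem exists_pieces {K : ℕ} (ρ : Equiv.Perm (Fin K)) (g : ℕ) (hg : 1 ≤ g) :
    ∃ p : Fin K → Fin K, (∀ j, (Finset.univ.filter fun a => p a = j).card ≤ g) ∧
      g * (Finset.univ.filter fun a => p (ρ a) ≠ p a).card ≤ 2 * K := by
  classical
  have key : ∀ n : ℕ, ∀ X : Finset (Fin K), X.card = n → ∃ p : Fin K → Fin K,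
      (∀ j, (X.filter fun a => p a = j).card ≤ g) ∧ (∀ a ∈ X, p a ∈ X) ∧
      g * (X.filter fun a => ρ a ∈ X ∧ p (ρ a) ≠ p a).card ≤ 2 * X.card := by
    intro n
    induction n using Nat.strong_induction_on with
    | _ n ih =>
      intro X hXn
      rcases X.eq_empty_or_nonempty with rfl | hX
      · exact ⟨id, by simp, by simp, by simp⟩
      -- the first element
      obtain ⟨a0, ha0, hstart⟩ : ∃ a ∈ X, ρ⁻¹ a ∉ X ∨ ∀ a ∈ X, ρ a ∈ X := by
        by_cases hex : ∃ a ∈ X, ρ⁻¹ a ∉ X
        · obtain ⟨a, ha, h⟩ := hex
          exact ⟨a, ha, Or.inl h⟩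
        · push Not at hex
          obtain ⟨a, ha⟩ := hX
          refine ⟨a, ha, Or.inr ?_⟩
          have himg : X.image (fun a => ρ⁻¹ a) = X := by
            apply Finset.eq_of_subset_of_card_le
            · intro b hb
              rw [Finset.mem_image] at hb
              obtain ⟨c, hc, rfl⟩ := hb
              exact hex c hc
            · rw [Finset.card_image_of_injective _ (ρ⁻¹).injective]
          intro b hb
          rw [← himg, Finset.mem_image] at hb
          obtain ⟨c, hc, rfl⟩ := hb
          simpa using hc
      have hex : ∃ i : ℕ, 1 ≤ i ∧ ((ρ ^ i) a0 ∉ X ∨ (ρ ^ i) a0 = a0) := by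
        refine ⟨orderOf ρ, orderOf_pos ρ, Or.inr ?_⟩
        rw [pow_orderOf_eq_one]
        rfl
      set j0 := Nat.find hex with hj0
      have hj0spec := Nat.find_spec hex
      rw [← hj0] at hj0spec
      have hj0min : ∀ i, 1 ≤ i → i < j0 → (ρ ^ i) a0 ∈ X ∧ (ρ ^ i) a0 ≠ a0 := by
        intro i h1 h2
        have := Nat.find_min hex h2
        rw [not_and, not_or] at this
        have h3 := this h1
        exact ⟨not_not.1 h3.1, h3.2⟩
      set j := min g j0 with hj
      have hj1 : 1 ≤ j := le_min hg hj0spec.1
      set Y := (Finset.range j).image fun i => (ρ ^ i) a0 with hY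
      have hYX : Y ⊆ X := by
        intro b hb
        rw [hY, Finset.mem_image] at hb
        obtain ⟨i, hi, rfl⟩ := hb
        rw [Finset.mem_range] at hi
        rcases Nat.eq_zero_or_pos i with rfl | hpos
        · simpa using ha0
        · exact (hj0min i hpos (lt_of_lt_of_le hi (min_le_right _ _))).1
      have hYcard : Y.card = j := by
        rw [hY, Finset.card_image_of_injOn, Finset.card_range]
        have hlt : ∀ i i' : ℕ, i < i' → i' < j → (ρ ^ i) a0 ≠ (ρ ^ i') a0 := by
          intro i i' h1 h2 heq
          have h3 : (ρ ^ (i' - i)) a0 = a0 := by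
            apply (ρ ^ i).injective
            rw [← Equiv.Perm.mul_apply, ← pow_add, heq]
            congr 2
            omega
          exact (hj0min (i' - i) (by omega)
            (lt_of_lt_of_le (by omega) (min_le_right g j0))).2 h3
        intro i hi i' hi' heq
        rw [Finset.mem_coe, Finset.mem_range] at hi hi'
        rcases lt_trichotomy i i' with h | h | h
        · exact absurd heq (hlt i i' h hi')
        · exact h
        · exact absurd heq.symm (hlt i' i h hi)
      have hcard : (X \ Y).card = X.card - j := by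
        rw [Finset.card_sdiff_of_subset hYX, hYcard]
      have hjX : j ≤ X.card := by
        rw [← hYcard]
        exact Finset.card_le_card hYX
      obtain ⟨p', hp1, hp2, hp3⟩ := ih (X \ Y).card (by omega) (X \ Y) rfl
      have ha0Y : a0 ∈ Y := by
        rw [hY, Finset.mem_image]
        exact ⟨0, by rw [Finset.mem_range]; omega, by simp⟩
      refine ⟨fun a => if a ∈ Y then a0 else p' a, ?_, ?_, ?_⟩
      · intro l
        by_cases hl : l = a0
        · subst hl
          refine le_trans (Finset.card_le_card (t := Y) ?_) (by rw [hYcard]; exact min_le_left _ _)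
          intro a ha
          rw [Finset.mem_filter] at ha
          beta_reduce at ha
          by_contra haY
          rw [if_neg haY] at ha
          have := hp2 a (Finset.mem_sdiff.2 ⟨ha.1, haY⟩)
          rw [ha.2, Finset.mem_sdiff] at this
          exact this.2 ha0Y
        · refine le_trans (Finset.card_le_card ?_) (hp1 l)
          intro a ha
          rw [Finset.mem_filter] at ha ⊢
          beta_reduce at ha
          by_cases haY : a ∈ Y
          · rw [if_pos haY] at ha
            exact absurd ha.2.symm hl
          · rw [if_neg haY] at ha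
            exact ⟨Finset.mem_sdiff.2 ⟨ha.1, haY⟩, ha.2⟩
      · intro a ha
        simp only
        split_ifs with haY
        · exact ha0
        · exact (Finset.mem_sdiff.1 (hp2 a (Finset.mem_sdiff.2 ⟨ha, haY⟩))).1
      · -- crossing edges
        have hcr : (X.filter fun a => ρ a ∈ X ∧ (if ρ a ∈ Y then a0 else p' (ρ a)) ≠
            (if a ∈ Y then a0 else p' a)) ⊆
            ((X \ Y).filter fun a => ρ a ∈ X \ Y ∧ p' (ρ a) ≠ p' a) ∪
            ((Y.filter fun a => ρ a ∈ X \ Y) ∪ ((X \ Y).filter fun a => ρ a ∈ Y)) := by
          intro a ha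
          rw [Finset.mem_filter] at ha
          obtain ⟨haX, hρX, hne⟩ := ha
          rw [Finset.mem_union, Finset.mem_union, Finset.mem_filter, Finset.mem_filter,
            Finset.mem_filter, Finset.mem_sdiff, Finset.mem_sdiff]
          by_cases h1 : a ∈ Y
          · by_cases h2 : ρ a ∈ Y
            · rw [if_pos h1, if_pos h2] at hne
              exact absurd rfl hne
            · right; left
              exact ⟨h1, hρX, h2⟩
          · by_cases h2 : ρ a ∈ Y
            · right; right
              exact ⟨⟨haX, h1⟩, h2⟩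
            · left
              rw [if_neg h1, if_neg h2] at hne
              exact ⟨⟨haX, h1⟩, ⟨hρX, h2⟩, hne⟩
        have hout : (Y.filter fun a => ρ a ∈ X \ Y) ⊆ {(ρ ^ (j - 1)) a0} := by
          intro a ha
          rw [Finset.mem_filter, hY, Finset.mem_image] at ha
          obtain ⟨⟨i, hi, rfl⟩, h2⟩ := ha
          rw [Finset.mem_range] at hi
          rw [Finset.mem_singleton]
          by_contra hne
          have hi2 : i + 1 < j := by
            by_contra hcon
            apply hne
            have : i = j - 1 := by omega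
            rw [this]
          rw [Finset.mem_sdiff] at h2
          apply h2.2
          rw [Finset.mem_image]
          exact ⟨i + 1, Finset.mem_range.2 hi2, by rw [pow_succ']; rfl⟩
        have hin : ((X \ Y).filter fun a => ρ a ∈ Y) ⊆ {ρ⁻¹ a0} := by
          intro a ha
          rw [Finset.mem_filter, hY, Finset.mem_image] at ha
          obtain ⟨haX, i, hi, h2⟩ := ha
          rw [Finset.mem_singleton]
          rcases Nat.eq_zero_or_pos i with rfl | hpos
          · rw [pow_zero] at h2
            have h3 : ρ a = a0 := h2.symm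
            rw [← h3]
            simp
          · exfalso
            rw [Finset.mem_range] at hi
            obtain ⟨i', rfl⟩ : ∃ i', i = i' + 1 := ⟨i - 1, by omega⟩
            rw [pow_succ', Equiv.Perm.mul_apply] at h2
            have h3 := ρ.injective h2
            rw [Finset.mem_sdiff] at haX
            apply haX.2
            rw [Finset.mem_image]
            exact ⟨i', Finset.mem_range.2 (by omega), h3⟩
        have hle := (Finset.card_le_card hcr).trans ((Finset.card_union_le _ _).trans
          (Nat.add_le_add_left (Finset.card_union_le _ _) _))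
        rcases le_or_gt g j0 with hgj | hgj
        · -- a full piece
          have hjg : j = g := min_eq_left hgj
          have h1 := Finset.card_le_card hout
          have h2 := Finset.card_le_card hin
          rw [Finset.card_singleton] at h1 h2
          have h4 : (X.filter fun a => ρ a ∈ X ∧ (if ρ a ∈ Y then a0 else p' (ρ a)) ≠
            (if a ∈ Y then a0 else p' a)).card ≤
            ((X \ Y).filter fun a => ρ a ∈ X \ Y ∧ p' (ρ a) ≠ p' a).card + 2 := by omega
          calc g * (X.filter fun a => ρ a ∈ X ∧ (if ρ a ∈ Y then a0 else p' (ρ a)) ≠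
            (if a ∈ Y then a0 else p' a)).card
              ≤ g * (((X \ Y).filter fun a => ρ a ∈ X \ Y ∧ p' (ρ a) ≠ p' a).card + 2) :=
                Nat.mul_le_mul_left _ h4
            _ = g * ((X \ Y).filter fun a => ρ a ∈ X \ Y ∧ p' (ρ a) ≠ p' a).card + 2 * g := by
                ring
            _ ≤ 2 * (X \ Y).card + 2 * g := Nat.add_le_add_right hp3 _
            _ = 2 * X.card := by omega
        · -- a short piece
          have hjj : j = j0 := min_eq_right hgj.le
          have h1 : (Y.filter fun a => ρ a ∈ X \ Y) = ∅ := by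
            rw [Finset.eq_empty_iff_forall_notMem]
            intro a ha
            have h5 := Finset.mem_singleton.1 (hout ha)
            rw [Finset.mem_filter, Finset.mem_sdiff] at ha
            have h6 : ρ a = (ρ ^ j0) a0 := by
              rw [h5, ← Equiv.Perm.mul_apply, ← pow_succ', hjj]
              congr 2
              omega
            rcases hj0spec.2 with h7 | h7
            · exact h7 (h6 ▸ ha.2.1)
            · apply ha.2.2
              rw [h6, h7]
              exact ha0Y
          have h2 : ((X \ Y).filter fun a => ρ a ∈ Y) = ∅ := by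
            rw [Finset.eq_empty_iff_forall_notMem]
            intro a ha
            have h5 := Finset.mem_singleton.1 (hin ha)
            rw [Finset.mem_filter, Finset.mem_sdiff] at ha
            rcases hstart with h7 | h7
            · exact h7 (h5 ▸ ha.1.1)
            · have h8 : ∀ i : ℕ, (ρ ^ i) a0 ∈ X := by
                intro i
                induction i with
                | zero => simpa using ha0
                | succ i ihi =>
                  rw [pow_succ', Equiv.Perm.mul_apply]
                  exact h7 _ ihi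
              have h9 : (ρ ^ j0) a0 = a0 := by
                rcases hj0spec.2 with h | h
                · exact absurd (h8 j0) h
                · exact h
              apply ha.1.2
              rw [hY, Finset.mem_image]
              refine ⟨j0 - 1, by rw [Finset.mem_range]; omega, ?_⟩
              rw [h5]
              apply ρ.injective
              rw [← Equiv.Perm.mul_apply, ← pow_succ']
              have : j0 - 1 + 1 = j0 := by omega
              rw [this, h9]
              simp
          rw [h1, h2, Finset.card_empty] at hle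
          have h4 : (X.filter fun a => ρ a ∈ X ∧ (if ρ a ∈ Y then a0 else p' (ρ a)) ≠
            (if a ∈ Y then a0 else p' a)).card ≤
            ((X \ Y).filter fun a => ρ a ∈ X \ Y ∧ p' (ρ a) ≠ p' a).card := by omega
          calc g * (X.filter fun a => ρ a ∈ X ∧ (if ρ a ∈ Y then a0 else p' (ρ a)) ≠
            (if a ∈ Y then a0 else p' a)).card
              ≤ g * ((X \ Y).filter fun a => ρ a ∈ X \ Y ∧ p' (ρ a) ≠ p' a).card :=
                Nat.mul_le_mul_left _ h4
            _ ≤ 2 * (X \ Y).card := hp3
            _ ≤ 2 * X.card := by omega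
  obtain ⟨p, h1, -, h3⟩ := key _ Finset.univ rfl
  refine ⟨p, h1, ?_⟩
  rw [Finset.card_univ, Fintype.card_fin] at h3
  simpa using h3

/-- mixing two permutations, with one coin per piece -/
theorem exists_merge {K : ℕ} (g : ℕ) (hg : 1 ≤ g) (τ τ' : Equiv.Perm (Fin K)) :
    ∃ (p : Fin K → Fin K) (bd : Finset (Fin K)) (mu : (Fin K → Bool) → Equiv.Perm (Fin K)),
      (∀ j, (Finset.univ.filter fun a => p a = j).card ≤ g) ∧ g * bd.card ≤ 2 * K ∧
      ∀ coin a, a ∉ bd → mu coin a = if coin (p a) then τ a else τ' a := by
  classical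
  obtain ⟨p, hp1, hp2⟩ := exists_pieces (τ⁻¹ * τ') g hg
  have hex : ∀ coin : Fin K → Bool, ∃ m : Equiv.Perm (Fin K), ∀ a b,
      ((coin (p a) = true ∧ τ a = b) ∨
        (coin (p a) = false ∧ coin (p ((τ⁻¹ * τ') a)) = false ∧ τ' a = b)) → m a = b := by
    intro coin
    apply exists_perm_extending
    · rintro a b b' (⟨h1, h2⟩ | ⟨h1, h2, h3⟩) (⟨h1', h2'⟩ | ⟨h1', h2', h3'⟩)
      · exact h2.symm.trans h2'
      · rw [h1] at h1'
        cases h1'
      · rw [h1] at h1'
        cases h1'
      · exact h3.symm.trans h3'
    · rintro a a' b (⟨h1, h2⟩ | ⟨h1, h2, h3⟩) (⟨h1', h2'⟩ | ⟨h1', h2', h3'⟩)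
      · exact τ.injective (h2.trans h2'.symm)
      · exfalso
        have h4 : (τ⁻¹ * τ') a' = a := by
          rw [Equiv.Perm.mul_apply, h3', ← h2]
          simp
        rw [h4, h1] at h2'
        cases h2'
      · exfalso
        have h4 : (τ⁻¹ * τ') a = a' := by
          rw [Equiv.Perm.mul_apply, h3, ← h2']
          simp
        rw [h4, h1'] at h2
        cases h2
      · exact τ'.injective (h3.trans h3'.symm)
  choose mu hmu using hex
  refine ⟨p, Finset.univ.filter fun a => p ((τ⁻¹ * τ') a) ≠ p a, mu, hp1, hp2, ?_⟩
  intro coin a ha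
  rw [Finset.mem_filter, not_and] at ha
  have hpa := not_not.1 (ha (Finset.mem_univ _))
  by_cases hc : coin (p a) = true
  · rw [if_pos hc]
    exact hmu coin a _ (Or.inl ⟨hc, rfl⟩)
  · rw [if_neg hc]
    rw [Bool.not_eq_true] at hc
    exact hmu coin a _ (Or.inr ⟨hc, by rw [hpa]; exact hc, rfl⟩)

/-- number of entries of a permutation in a set of cells -/
def hits {K : ℕ} (π : Equiv.Perm (Fin K)) (A : Finset (Fin K × Fin K)) : ℕ :=
  (Finset.univ.filter fun a => (a, π a) ∈ A).card

lemma hits_le {K : ℕ} (π : Equiv.Perm (Fin K)) (A : Finset (Fin K × Fin K)) : hits π A ≤ K := by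
  unfold hits
  refine (Finset.card_filter_le _ _).trans ?_
  rw [Finset.card_univ, Fintype.card_fin]

lemma hits_eq_sum {K : ℕ} (π : Equiv.Perm (Fin K)) (A : Finset (Fin K × Fin K))
    (p : Fin K → Fin K) :
    hits π A = ∑ j, (Finset.univ.filter fun a => p a = j ∧ (a, π a) ∈ A).card := by
  unfold hits
  rw [Finset.card_eq_sum_card_fiberwise (f := p) (t := Finset.univ) (fun _ _ => Finset.mem_univ _)]
  apply Finset.sum_congr rfl
  intro j _
  congr 1
  ext a
  simp only [Finset.mem_filter, Finset.mem_univ, true_and]
  tauto

lemma two_point {s x y : ℝ} :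
    Real.exp (s * x) + Real.exp (s * y) ≤
      2 * Real.exp (s * (x + y) / 2 + s ^ 2 * (x - y) ^ 2 / 8) := by
  have h1 := Real.cosh_le_exp_half_sq (s * (x - y) / 2)
  rw [Real.cosh_eq] at h1
  have h2 : Real.exp (s * x) + Real.exp (s * y) =
      2 * (Real.exp (s * (x + y) / 2) *
        ((Real.exp (s * (x - y) / 2) + Real.exp (-(s * (x - y) / 2))) / 2)) := by
    have e1 : Real.exp (s * x) = Real.exp (s * (x + y) / 2) * Real.exp (s * (x - y) / 2) := by
      rw [← Real.exp_add]
      ring_nf
    have e2 : Real.exp (s * y) = Real.exp (s * (x + y) / 2) * Real.exp (-(s * (x - y) / 2)) := by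
      rw [← Real.exp_add]
      ring_nf
    rw [e1, e2]
    ring
  rw [h2, Real.exp_add]
  have h3 : (s * (x - y) / 2) ^ 2 / 2 = s ^ 2 * (x - y) ^ 2 / 8 := by ring
  rw [h3] at h1
  have h4 := Real.exp_pos (s * (x + y) / 2)
  have h5 := mul_le_mul_of_nonneg_left h1 h4.le
  linarith

/-- exponential moment after mixing -/
theorem merge_moment {K : ℕ} (g : ℕ) (τ τ' : Equiv.Perm (Fin K)) (p : Fin K → Fin K)
    (bd : Finset (Fin K)) (mu : (Fin K → Bool) → Equiv.Perm (Fin K))
    (hp : ∀ j, (Finset.univ.filter fun a => p a = j).card ≤ g)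
    (hmu : ∀ coin a, a ∉ bd → mu coin a = if coin (p a) then τ a else τ' a)
    (A : Finset (Fin K × Fin K)) (s : ℝ) (hs : 0 ≤ s) :
    ∑ coin : Fin K → Bool, Real.exp (s * hits (mu coin) A) ≤
      2 ^ K * Real.exp (s * bd.card + s * (hits τ A + hits τ' A) / 2 + s ^ 2 * (g * K) / 8) := by
  classical
  set X : Fin K → ℕ := fun j => (Finset.univ.filter fun a => p a = j ∧ (a, τ a) ∈ A).card with hX
  set Y : Fin K → ℕ := fun j => (Finset.univ.filter fun a => p a = j ∧ (a, τ' a) ∈ A).card with hY
  set gj : Fin K → ℕ := fun j => (Finset.univ.filter fun a => p a = j).card with hgj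
  have hhit : ∀ coin : Fin K → Bool, hits (mu coin) A ≤
      bd.card + ∑ j, (if coin j then X j else Y j) := by
    intro coin
    have h1 : hits (mu coin) A ≤ (bd ∪ Finset.univ.filter fun a =>
        (a, if coin (p a) then τ a else τ' a) ∈ A).card := by
      unfold hits
      apply Finset.card_le_card
      intro a ha
      rw [Finset.mem_filter] at ha
      rw [Finset.mem_union, Finset.mem_filter]
      by_cases hb : a ∈ bd
      · exact Or.inl hb
      · right
        refine ⟨Finset.mem_univ _, ?_⟩
        rw [← hmu coin a hb]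
        exact ha.2
    refine h1.trans ((Finset.card_union_le _ _).trans (Nat.add_le_add_left ?_ _))
    rw [Finset.card_eq_sum_card_fiberwise (f := p) (t := Finset.univ)
      (fun _ _ => Finset.mem_univ _)]
    apply le_of_eq
    apply Finset.sum_congr rfl
    intro j _
    by_cases hc : coin j = true
    · rw [if_pos hc, hX]
      congr 1
      ext a
      simp only [Finset.mem_filter, Finset.mem_univ, true_and]
      constructor
      · rintro ⟨h2, h3⟩
        rw [h3, if_pos hc] at h2
        exact ⟨h3, h2⟩
      · rintro ⟨h2, h3⟩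
        rw [h2, if_pos hc]
        exact ⟨h3, rfl⟩
    · rw [if_neg hc, hY]
      congr 1
      ext a
      simp only [Finset.mem_filter, Finset.mem_univ, true_and]
      constructor
      · rintro ⟨h2, h3⟩
        rw [h3, if_neg hc] at h2
        exact ⟨h3, h2⟩
      · rintro ⟨h2, h3⟩
        rw [h2, if_neg hc]
        exact ⟨h3, rfl⟩
  have hsum : ∑ coin : Fin K → Bool, Real.exp (s * hits (mu coin) A) ≤
      ∑ coin : Fin K → Bool, Real.exp (s * bd.card) *
        ∏ j, Real.exp (s * (if coin j then X j else Y j : ℕ)) := by
    apply Finset.sum_le_sum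
    intro coin _
    rw [← Real.exp_sum, ← Real.exp_add, Real.exp_le_exp, ← Finset.mul_sum, ← mul_add]
    apply mul_le_mul_of_nonneg_left _ hs
    exact_mod_cast hhit coin
  refine hsum.trans ?_
  rw [← Finset.mul_sum]
  have hprod : ∑ coin : Fin K → Bool, ∏ j, Real.exp (s * (if coin j then X j else Y j : ℕ)) =
      ∏ j, (Real.exp (s * X j) + Real.exp (s * Y j)) := by
    have h1 := Finset.prod_univ_sum (fun _ : Fin K => (Finset.univ : Finset Bool))
      (fun j b => Real.exp (s * (if b then X j else Y j : ℕ)))
    rw [Fintype.piFinset_univ] at h1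
    rw [← h1]
    apply Finset.prod_congr rfl
    intro j _
    rw [Fintype.sum_bool]
    simp
  rw [hprod]
  have hle : ∏ j, (Real.exp (s * X j) + Real.exp (s * Y j)) ≤
      ∏ j : Fin K, (2 * Real.exp (s * (X j + Y j) / 2 + s ^ 2 * (g * gj j) / 8)) := by
    apply Finset.prod_le_prod
    · intro j _
      positivity
    · intro j _
      refine two_point.trans ?_
      apply mul_le_mul_of_nonneg_left _ (by norm_num)
      rw [Real.exp_le_exp]
      have hXg : X j ≤ gj j := Finset.card_le_card (fun a ha => by
        rw [Finset.mem_filter] at ha ⊢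
        exact ⟨ha.1, ha.2.1⟩)
      have hYg : Y j ≤ gj j := Finset.card_le_card (fun a ha => by
        rw [Finset.mem_filter] at ha ⊢
        exact ⟨ha.1, ha.2.1⟩)
      have hgg : gj j ≤ g := hp j
      have h1 : ((X j : ℝ) - Y j) ^ 2 ≤ g * gj j := by
        have e1 : |(X j : ℝ) - Y j| ≤ gj j := by
          rw [abs_le]
          have a1 : (X j : ℝ) ≤ gj j := by exact_mod_cast hXg
          have a2 : (Y j : ℝ) ≤ gj j := by exact_mod_cast hYg
          have a3 : (0 : ℝ) ≤ X j := Nat.cast_nonneg _
          have a4 : (0 : ℝ) ≤ Y j := Nat.cast_nonneg _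
          constructor <;> linarith
        have e2 : (gj j : ℝ) ≤ g := by exact_mod_cast hgg
        have e3 : ((X j : ℝ) - Y j) ^ 2 ≤ (gj j : ℝ) ^ 2 := by
          rw [← sq_abs]
          exact pow_le_pow_left₀ (abs_nonneg _) e1 2
        have e4 : (gj j : ℝ) ^ 2 ≤ g * gj j := by
          rw [sq]
          exact mul_le_mul_of_nonneg_right e2 (Nat.cast_nonneg _)
        exact e3.trans e4
      have h2 : s ^ 2 * ((X j : ℝ) - Y j) ^ 2 ≤ s ^ 2 * (g * gj j) :=
        mul_le_mul_of_nonneg_left h1 (sq_nonneg s)
      linarith
  have hgsum : ∑ j, gj j = K := by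
    have := Finset.card_eq_sum_card_fiberwise (f := p) (s := Finset.univ) (t := Finset.univ)
      (fun _ _ => Finset.mem_univ _)
    rw [Finset.card_univ, Fintype.card_fin] at this
    exact this.symm
  have hXsum : ∑ j, X j = hits τ A := (hits_eq_sum τ A p).symm
  have hYsum : ∑ j, Y j = hits τ' A := (hits_eq_sum τ' A p).symm
  calc Real.exp (s * bd.card) * ∏ j, (Real.exp (s * X j) + Real.exp (s * Y j))
      ≤ Real.exp (s * bd.card) *
        ∏ j : Fin K, (2 * Real.exp (s * (X j + Y j) / 2 + s ^ 2 * (g * gj j) / 8)) :=
        mul_le_mul_of_nonneg_left hle (Real.exp_pos _).le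
    _ = 2 ^ K * Real.exp (s * bd.card + s * (hits τ A + hits τ' A) / 2 +
          s ^ 2 * (g * K) / 8) := by
        rw [Finset.prod_mul_distrib, Finset.prod_const, Finset.card_univ, Fintype.card_fin,
          ← Real.exp_sum, mul_left_comm, ← Real.exp_add]
        congr 2
        rw [Finset.sum_add_distrib]
        have e1 : ∑ j, s * ((X j : ℝ) + Y j) / 2 = s * (hits τ A + hits τ' A) / 2 := by
          rw [← Finset.sum_div, ← Finset.mul_sum, Finset.sum_add_distrib]
          congr 2
          rw [← hXsum, ← hYsum]
          push_cast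
          rfl
        have e2 : ∑ j, s ^ 2 * ((g : ℝ) * gj j) / 8 = s ^ 2 * (g * K) / 8 := by
          rw [← Finset.sum_div, ← Finset.mul_sum, ← Finset.mul_sum]
          have e3 : ∑ j, (gj j : ℝ) = (K : ℝ) := by exact_mod_cast hgsum
          rw [e3]
        rw [e1, e2]
        ring

end Pool.Agent.H24.LP.Nib
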