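import Pool.Agent.H24.LP.Nib.Key

/-!
# The order of largest level
-/

namespace Pool.Agent.H24.LP.Nib

open Finset

set_option linter.unusedSectionVars false

/-- parameters of the process -/
lemma params {C ν ζ : ℝ} (hC : 0 < C) (hν : 0 < ν) (hζ : 0 < ζ) : ∃ K0 : ℕ, ∀ K ≥ K0, ∃ r k : ℕ,
    1 ≤ r ∧ r ^ 4 ≤ K ∧ 2 ^ k ≤ r ∧ 8 * (⌈4 * C⌉₊ : ℝ) ≤ ζ * r ∧
    8 * C * Real.log (4 * K) ≤ ν * ζ * 2 ^ k ∧ C < K := by
  set r0 := max (max 1 ⌈8 * (⌈4 * C⌉₊ : ℝ) / ζ⌉₊) (max ⌈(256 * C / (ν * ζ)) ^ 2⌉₊ ⌈C + 1⌉₊) with hr0
  refine ⟨r0 ^ 4, ?_⟩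
  intro K hK
  set r := Nat.sqrt (Nat.sqrt K) with hr
  have h1 : r0 ≤ r := by
    rw [hr, Nat.le_sqrt, Nat.le_sqrt]
    calc r0 * r0 * (r0 * r0) = r0 ^ 4 := by ring
      _ ≤ K := hK
  have h2 : r ^ 4 ≤ K := by
    have e1 : r * r ≤ Nat.sqrt K := Nat.sqrt_le _
    have e2 : Nat.sqrt K * Nat.sqrt K ≤ K := Nat.sqrt_le _
    calc r ^ 4 = (r * r) * (r * r) := by ring
      _ ≤ Nat.sqrt K * Nat.sqrt K := Nat.mul_le_mul e1 e1
      _ ≤ K := e2
  have h3 : K < (r + 1) ^ 4 := by
    have e1 : Nat.sqrt K < (r + 1) * (r + 1) := Nat.lt_succ_sqrt _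
    have e2 : K < (Nat.sqrt K + 1) * (Nat.sqrt K + 1) := Nat.lt_succ_sqrt _
    calc K < (Nat.sqrt K + 1) * (Nat.sqrt K + 1) := e2
      _ ≤ ((r + 1) * (r + 1)) * ((r + 1) * (r + 1)) := Nat.mul_le_mul e1 e1
      _ = (r + 1) ^ 4 := by ring
  have hr1 : 1 ≤ r := le_trans (le_trans (le_max_left _ _) (le_max_left _ _)) h1
  have hra : ⌈8 * (⌈4 * C⌉₊ : ℝ) / ζ⌉₊ ≤ r :=
    le_trans (le_trans (le_max_right _ _) (le_max_left _ _)) h1
  have hrb : ⌈(256 * C / (ν * ζ)) ^ 2⌉₊ ≤ r :=
    le_trans (le_trans (le_max_left _ _) (le_max_right _ _)) h1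
  have hrc : ⌈C + 1⌉₊ ≤ r := le_trans (le_trans (le_max_right _ _) (le_max_right _ _)) h1
  refine ⟨r, Nat.log 2 r, hr1, h2, Nat.pow_log_le_self 2 (by omega), ?_, ?_, ?_⟩
  · have e1 : 8 * (⌈4 * C⌉₊ : ℝ) / ζ ≤ r := (Nat.le_ceil _).trans (by exact_mod_cast hra)
    rw [div_le_iff₀ hζ] at e1
    linarith
  · have hr1' : (1 : ℝ) ≤ r := by exact_mod_cast hr1
    have hrpos : (0 : ℝ) < r := by linarith
    have hKpos : (0 : ℝ) < K := by
      have : 0 < K := lt_of_lt_of_le (Nat.pow_pos hr1) h2
      exact_mod_cast this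
    have e1 : (256 * C / (ν * ζ)) ^ 2 ≤ r := (Nat.le_ceil _).trans (by exact_mod_cast hrb)
    have e2 : 256 * C / (ν * ζ) ≤ Real.sqrt r := by
      apply Real.le_sqrt_of_sq_le
      exact e1
    have e3 : (r : ℝ) ≤ 2 ^ Nat.log 2 r * 2 := by
      have : r < 2 ^ (Nat.log 2 r + 1) := Nat.lt_pow_succ_log_self (by norm_num) r
      rw [pow_succ] at this
      exact_mod_cast this.le
    have e4 : Real.log (4 * K) ≤ 16 * Real.sqrt r := by
      have hK4 : (4 * K : ℝ) ≤ (4 * r) ^ 4 := by
        have f1 : (K : ℝ) ≤ (r + 1) ^ 4 := by exact_mod_cast h3.le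
        have f2 : ((r : ℝ) + 1) ^ 4 ≤ (2 * r) ^ 4 := by
          apply pow_le_pow_left₀ (by positivity)
          linarith
        have f3 : (4 * r : ℝ) ^ 4 = 16 * (2 * r) ^ 4 := by ring
        have f4 : (0 : ℝ) ≤ (2 * r) ^ 4 := by positivity
        rw [f3]
        linarith
      have f5 : Real.log (4 * r) ≤ 4 * Real.sqrt r := by
        have g1 : Real.log (Real.sqrt (4 * r)) ≤ Real.sqrt (4 * r) := by
          have := Real.log_le_sub_one_of_pos (x := Real.sqrt (4 * r)) (by positivity)
          linarith
        rw [Real.log_sqrt (by positivity)] at g1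
        have g2 : Real.sqrt (4 * r) = 2 * Real.sqrt r := by
          rw [Real.sqrt_mul (by norm_num), show (4 : ℝ) = 2 ^ 2 by norm_num,
            Real.sqrt_sq (by norm_num)]
        rw [g2] at g1
        linarith
      calc Real.log (4 * K) ≤ Real.log ((4 * r) ^ 4) := Real.log_le_log (by positivity) hK4
        _ = 4 * Real.log (4 * r) := by
            rw [Real.log_pow]
            norm_num
        _ ≤ 4 * (4 * Real.sqrt r) := by linarith
        _ = 16 * Real.sqrt r := by ring
    have hνζ : 0 < ν * ζ := mul_pos hν hζ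
    rw [div_le_iff₀ hνζ] at e2
    have e5 : Real.sqrt r * Real.sqrt r = r := Real.mul_self_sqrt hrpos.le
    have hsq : 0 ≤ Real.sqrt r := Real.sqrt_nonneg _
    calc 8 * C * Real.log (4 * K) ≤ 8 * C * (16 * Real.sqrt r) :=
          mul_le_mul_of_nonneg_left e4 (by positivity)
      _ = (256 * C) * Real.sqrt r / 2 := by ring
      _ ≤ (Real.sqrt r * (ν * ζ)) * Real.sqrt r / 2 := by gcongr
      _ = ν * ζ * (Real.sqrt r * Real.sqrt r) / 2 := by ring
      _ = ν * ζ * r / 2 := by rw [e5]
      _ ≤ ν * ζ * (2 ^ Nat.log 2 r * 2) / 2 := by gcongr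
      _ = ν * ζ * 2 ^ Nat.log 2 r := by ring
  · have e1 : C + 1 ≤ r := (Nat.le_ceil _).trans (by exact_mod_cast hrc)
    have e2 : (r : ℝ) ≤ K := by
      have : r ≤ r ^ 4 := Nat.le_self_pow (by norm_num) r
      exact_mod_cast this.trans h2
    linarith

variable {V : Type} [Fintype V] [DecidableEq V]

lemma exists_order_aux (f : Finset V → V → ℤ) (R : Finset V) : ∀ n, ∀ T ⊆ R, (R \ T).card = n →
    ∃ rk : V → ℕ, (∀ x ∈ R \ T, ∀ y ∈ R \ T, rk x = rk y → x = y) ∧
      (∀ x ∈ R \ T, T.card ≤ rk x) ∧ ∀ u ∈ R \ T, ∀ v ∈ R \ T, rk u < rk v →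
        f (T ∪ (R \ T).filter (fun x => rk x < rk u)) v ≤
          f (T ∪ (R \ T).filter (fun x => rk x < rk u)) u := by
  intro n
  induction n with
  | zero =>
    intro T _ hc
    rw [Finset.card_eq_zero] at hc
    refine ⟨fun _ => 0, ?_, ?_, ?_⟩
    · intro x hx
      rw [hc] at hx
      exact absurd hx (Finset.notMem_empty x)
    · intro x hx
      rw [hc] at hx
      exact absurd hx (Finset.notMem_empty x)
    · intro x hx
      rw [hc] at hx
      exact absurd hx (Finset.notMem_empty x)
  | succ n ih =>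
    intro T hT hc
    have hne : (R \ T).Nonempty := by
      rw [← Finset.card_pos]
      omega
    obtain ⟨w, hw, hmax⟩ := Finset.exists_max_image (R \ T) (f T) hne
    have hwR : w ∈ R := (Finset.mem_sdiff.1 hw).1
    have hwT : w ∉ T := (Finset.mem_sdiff.1 hw).2
    have hsd : R \ insert w T = (R \ T).erase w := by
      ext x
      simp only [Finset.mem_sdiff, Finset.mem_insert, Finset.mem_erase]
      tauto
    obtain ⟨rk, h1, h2, h3⟩ := ih (insert w T) (Finset.insert_subset hwR hT) (by
      rw [hsd, Finset.card_erase_of_mem hw]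
      omega)
    rw [Finset.card_insert_of_notMem hwT] at h2
    have hother : ∀ x ∈ R \ T, x ≠ w → x ∈ R \ insert w T := by
      intro x hx hxw
      rw [hsd, Finset.mem_erase]
      exact ⟨hxw, hx⟩
    refine ⟨Function.update rk w T.card, ?_, ?_, ?_⟩
    · intro x hx y hy hxy
      by_cases hxw : x = w
      · by_cases hyw : y = w
        · rw [hxw, hyw]
        · rw [hxw, Function.update_self, Function.update_of_ne hyw] at hxy
          have := h2 y (hother y hy hyw)
          omega
      · by_cases hyw : y = w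
        · rw [hyw, Function.update_self, Function.update_of_ne hxw] at hxy
          have := h2 x (hother x hx hxw)
          omega
        · rw [Function.update_of_ne hxw, Function.update_of_ne hyw] at hxy
          exact h1 x (hother x hx hxw) y (hother y hy hyw) hxy
    · intro x hx
      by_cases hxw : x = w
      · rw [hxw, Function.update_self]
      · rw [Function.update_of_ne hxw]
        have := h2 x (hother x hx hxw)
        omega
    · intro u hu v hv huv
      by_cases huw : u = w
      · rw [huw, Function.update_self] at huv ⊢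
        have hempty : (R \ T).filter (fun x => Function.update rk w T.card x < T.card) = ∅ := by
          rw [Finset.filter_eq_empty_iff]
          intro x hx
          by_cases hxw : x = w
          · rw [hxw, Function.update_self]
            omega
          · rw [Function.update_of_ne hxw]
            have := h2 x (hother x hx hxw)
            omega
        rw [hempty, Finset.union_empty]
        exact hmax v hv
      · have hvw : v ≠ w := by
          rintro rfl
          rw [Function.update_self, Function.update_of_ne huw] at huv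
          have := h2 u (hother u hu huw)
          omega
        have hu' := hother u hu huw
        have hset : T ∪ (R \ T).filter (fun x => Function.update rk w T.card x <
            Function.update rk w T.card u) =
            insert w T ∪ (R \ insert w T).filter (fun x => rk x < rk u) := by
          rw [Function.update_of_ne huw]
          ext x
          simp only [Finset.mem_union, Finset.mem_filter, Finset.mem_insert]
          constructor
          · rintro (hx | ⟨hx1, hx2⟩)
            · exact Or.inl (Or.inr hx)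
            · by_cases hxw : x = w
              · exact Or.inl (Or.inl hxw)
              · rw [Function.update_of_ne hxw] at hx2
                exact Or.inr ⟨hother x hx1 hxw, hx2⟩
          · rintro ((hx | hx) | ⟨hx1, hx2⟩)
            · right
              rw [hx, Function.update_self]
              refine ⟨hw, ?_⟩
              have := h2 u hu'
              omega
            · exact Or.inl hx
            · right
              rw [hsd, Finset.mem_erase] at hx1
              rw [Function.update_of_ne hx1.1]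
              exact ⟨hx1.2, hx2⟩
        rw [hset]
        apply h3 u hu' v (hother v hv hvw)
        rwa [Function.update_of_ne huw, Function.update_of_ne hvw] at huv

/-- an order in which the next vertex always has the largest value -/
lemma exists_order (f : Finset V → V → ℤ) (R : Finset V) :
    ∃ rk : V → ℕ, (∀ x ∈ R, ∀ y ∈ R, rk x = rk y → x = y) ∧
      ∀ u ∈ R, ∀ v ∈ R, rk u < rk v → f (R.filter (fun x => rk x < rk u)) v ≤
        f (R.filter (fun x => rk x < rk u)) u := by
  obtain ⟨rk, h1, -, h3⟩ := exists_order_aux f R _ ∅ (Finset.empty_subset R) rfl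
  simp only [Finset.sdiff_empty, Finset.empty_union] at h1 h3
  exact ⟨rk, h1, h3⟩

end Pool.Agent.H24.LP.Nib
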