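import Pool.Agent.H24.LP.Nib.Step
import Pool.Agent.H24.LP.Core

/-!
# From the potential to a law
-/

namespace Pool.Agent.H24.LP.Nib

open Finset

set_option linter.unusedSectionVars false

lemma rect_rows {K b : ℕ} (B : Finset (Fin K × Fin K))
    (h : ∀ a, K ≤ (Finset.univ.filter fun c => (a, c) ∈ B).card + b) (S T : Finset (Fin K)) :
    S.card * T.card ≤ (rect B S T).card + S.card * b := by
  classical
  have h1 : (rect B S T).card = ∑ a ∈ S, (T.filter fun c => (a, c) ∈ B).card := by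
    have h2 : rect B S T = (S.sigma fun a => T.filter fun c => (a, c) ∈ B).image
        (fun x => ((x.1, x.2) : Fin K × Fin K)) := by
      ext x
      rw [mem_rect, Finset.mem_image]
      constructor
      · rintro ⟨h1, h2, h3⟩
        refine ⟨⟨x.1, x.2⟩, ?_, rfl⟩
        rw [Finset.mem_sigma, Finset.mem_filter]
        exact ⟨h2, h3, h1⟩
      · rintro ⟨y, hy, rfl⟩
        rw [Finset.mem_sigma, Finset.mem_filter] at hy
        exact ⟨hy.2.2, hy.1, hy.2.1⟩
    rw [h2, Finset.card_image_of_injective, Finset.card_sigma]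
    rintro ⟨a, b⟩ ⟨c, d⟩ h
    simp only [Prod.mk.injEq] at h
    obtain ⟨rfl, rfl⟩ := h
    rfl
  rw [h1]
  have h3 : ∀ a ∈ S, T.card ≤ (T.filter fun c => (a, c) ∈ B).card + b := by
    intro a _
    have h4 : (T.filter fun c => ¬ (a, c) ∈ B).card ≤ b := by
      have h5 : (T.filter fun c => ¬ (a, c) ∈ B).card ≤
          (Finset.univ.filter fun c => ¬ (a, c) ∈ B).card :=
        Finset.card_le_card (Finset.filter_subset_filter _ (Finset.subset_univ T))
      have h6 : (Finset.univ.filter fun c => (a, c) ∈ B).card +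
          (Finset.univ.filter fun c => ¬ (a, c) ∈ B).card = K := by
        rw [Finset.card_filter_add_card_filter_not, Finset.card_univ, Fintype.card_fin]
      have := h a
      omega
    have h7 : (T.filter fun c => (a, c) ∈ B).card + (T.filter fun c => ¬ (a, c) ∈ B).card =
        T.card := Finset.card_filter_add_card_filter_not _
    omega
  calc S.card * T.card = ∑ _a ∈ S, T.card := by rw [Finset.sum_const, smul_eq_mul]
    _ ≤ ∑ a ∈ S, ((T.filter fun c => (a, c) ∈ B).card + b) := Finset.sum_le_sum h3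
    _ = _ := by rw [Finset.sum_add_distrib, Finset.sum_const, smul_eq_mul]

lemma rect_swap {K : ℕ} (B : Finset (Fin K × Fin K)) (S T : Finset (Fin K)) :
    (rect (B.image Prod.swap) T S).card = (rect B S T).card := by
  classical
  have : rect (B.image Prod.swap) T S = (rect B S T).image Prod.swap := by
    ext x
    rw [mem_rect, Finset.mem_image, Finset.mem_image]
    constructor
    · rintro ⟨⟨y, hy, rfl⟩, h2, h3⟩
      exact ⟨y, mem_rect.2 ⟨hy, h3, h2⟩, rfl⟩
    · rintro ⟨y, hy, rfl⟩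
      rw [mem_rect] at hy
      exact ⟨⟨y, hy.1, rfl⟩, hy.2.2, hy.2.1⟩
  rw [this, Finset.card_image_of_injective _ Prod.swap_injective]

lemma rect_cols {K b : ℕ} (B : Finset (Fin K × Fin K))
    (h : ∀ c, K ≤ (Finset.univ.filter fun a => (a, c) ∈ B).card + b) (S T : Finset (Fin K)) :
    S.card * T.card ≤ (rect B S T).card + T.card * b := by
  classical
  have h1 := rect_rows (B.image Prod.swap) (b := b) (by
    intro a
    refine (h a).trans (Nat.add_le_add_right (Finset.card_le_card ?_) _)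
    intro c hc
    rw [Finset.mem_filter] at hc ⊢
    refine ⟨Finset.mem_univ _, ?_⟩
    rw [Finset.mem_image]
    exact ⟨(c, a), hc.2, rfl⟩) T S
  rw [rect_swap, mul_comm] at h1
  exact h1

/-- the numerical core -/
lemma core {K C Cv δ ν a P X b t s u E : ℝ} (hK : 0 < K) (hC : 1 ≤ C) (hCv1 : 1 ≤ Cv)
    (hCv : Cv ≤ C) (hδ : 0 < δ) (hδ1 : δ ≤ 1) (hν0 : 0 ≤ ν) (hν : 64 * C ^ 4 * ν ≤ δ)
    (hPa : 1 + δ ≤ P * a * Cv) (hP1 : P ≤ 1) (hPC : 1 ≤ P * C)
    (hX : 2 * C * X + K ≤ C * K) (hb : (1 + δ) * K ≤ (K - b) * Cv) (ht : 4 * C * t ≤ K)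
    (hsu : s ≤ u) (huK : u ≤ K) (hs0 : 0 ≤ s)
    (ha : K ≤ s + u → a * K * (s + u - K) ≤ s * (u - X))
    (hE1 : s * (u - b) ≤ E) (hE2 : P * (s * (u - X) - ν * K ^ 2) ≤ E) :
    (K < s + u → (1 + δ / 2) * (K / Cv) * (s + u - K) ≤ E) ∧
    (1 ≤ s → K ≤ s + u + t → 0 < E) := by
  have hCpos : 0 < C := by linarith
  have hCvpos : 0 < Cv := by linarith
  set g := K / Cv with hg
  have hgK : g ≤ K := by
    rw [hg, div_le_iff₀ hCvpos]
    nlinarith
  have hgC : K / C ≤ g := by
    rw [hg]
    gcongr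
  have hg0 : 0 < g := by positivity
  have hgb : (1 + δ) * g ≤ K - b := by
    rw [hg, ← mul_div_assoc, div_le_iff₀ hCvpos]
    exact hb
  have hKC0 : 0 < K / C := by positivity
  have hPpos : 0 < P := by
    by_contra hcon
    push Not at hcon
    nlinarith
  have hX' : K / (2 * C) ≤ K / 2 - X := by
    rw [div_le_iff₀ (by positivity)]
    linarith
  have hC4 : 1 ≤ C ^ 4 := one_le_pow₀ hC
  have hC2 : 1 ≤ C ^ 2 := one_le_pow₀ hC
  have hC2' : C ^ 2 ≤ C ^ 4 := pow_le_pow_right₀ hC (by norm_num)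
  have hν2 : 64 * C ^ 2 * ν ≤ 1 := by
    have : C ^ 2 * ν ≤ C ^ 4 * ν := mul_le_mul_of_nonneg_right hC2' hν0
    linarith
  have hPKC : K ^ 2 / (C ^ 3) ≤ P * (K ^ 2 / C ^ 2) := by
    have h1 : K ^ 2 / C ^ 3 = 1 / C * (K ^ 2 / C ^ 2) := by field_simp
    rw [h1]
    apply mul_le_mul_of_nonneg_right _ (by positivity)
    rw [div_le_iff₀ hCpos]
    exact hPC
  have hνK : ν * K ^ 2 ≤ (1 / 64) * (K ^ 2 / C ^ 2) := by
    have h1 : (1 / 64) * (K ^ 2 / C ^ 2) = (1 / 64 / C ^ 2) * K ^ 2 := by ring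
    rw [h1]
    apply mul_le_mul_of_nonneg_right _ (by positivity)
    rw [le_div_iff₀ (by positivity)]
    linarith
  have hKC2 : 0 < K ^ 2 / C ^ 2 := by positivity
  constructor
  · intro hsum
    have hw : 0 < s + u - K := by linarith
    rcases le_or_gt s g with hsg | hsg
    · -- small sets
      refine le_trans ?_ hE1
      have h1 : s * ((1 + δ) * g) ≤ s * (K - b) := mul_le_mul_of_nonneg_left hgb hs0
      have h2 : 0 ≤ (K - u) * ((1 + δ / 2) * g - s) := by
        apply mul_nonneg (by linarith)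
        nlinarith
      have h3 : 0 ≤ δ / 2 * g * s := by positivity
      nlinarith
    · have hmain : (1 + δ) * g * (s + u - K) ≤ P * (s * (u - X)) := by
        have h1 := mul_le_mul_of_nonneg_left (ha hsum.le) hPpos.le
        refine le_trans ?_ h1
        have h2 : (1 + δ) * g ≤ P * a * K := by
          rw [hg, ← mul_div_assoc, div_le_iff₀ hCvpos]
          nlinarith
        calc (1 + δ) * g * (s + u - K) ≤ P * a * K * (s + u - K) :=
              mul_le_mul_of_nonneg_right h2 hw.le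
          _ = P * (a * K * (s + u - K)) := by ring
      have hνP : P * (ν * K ^ 2) ≤ ν * K ^ 2 := by
        have : 0 ≤ ν * K ^ 2 := by positivity
        nlinarith
      rcases le_or_gt (K / (32 * C ^ 3)) (s + u - K) with hu | hu
      · refine le_trans ?_ hE2
        have h1 : ν * K ^ 2 ≤ δ / 2 * g * (s + u - K) := by
          calc ν * K ^ 2 ≤ δ / (64 * C ^ 4) * K ^ 2 := by
                apply mul_le_mul_of_nonneg_right _ (by positivity)
                rw [le_div_iff₀ (by positivity)]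
                linarith
            _ = δ / 2 * (K / C) * (K / (32 * C ^ 3)) := by
                field_simp
                ring
            _ ≤ δ / 2 * g * (s + u - K) := by gcongr
        nlinarith
      · refine le_trans ?_ hE2
        have h1 : K / C ≤ s := hgC.trans hsg.le
        have h2 : K / (2 * C) ≤ u - X := by linarith
        have h3 : K ^ 2 / C ^ 2 * (1 / 2) ≤ s * (u - X) := by
          calc K ^ 2 / C ^ 2 * (1 / 2) = (K / C) * (K / (2 * C)) := by
                field_simp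
            _ ≤ s * (u - X) := by
                apply mul_le_mul h1 h2 (by positivity) hs0
        have h4 : (1 + δ / 2) * g * (s + u - K) ≤ 2 * K * (K / (32 * C ^ 3)) := by
          have : (1 + δ / 2) ≤ 2 := by linarith
          gcongr
        have h5 : 2 * K * (K / (32 * C ^ 3)) = (1 / 16) * (K ^ 2 / C ^ 3) := by
          field_simp
          ring
        have h6 : P * (K ^ 2 / C ^ 2 * (1 / 2) - ν * K ^ 2) ≤ P * (s * (u - X) - ν * K ^ 2) := by
          apply mul_le_mul_of_nonneg_left _ hPpos.le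
          linarith
        have h7 : P * (K ^ 2 / C ^ 2 * (1 / 4)) ≤ P * (K ^ 2 / C ^ 2 * (1 / 2) - ν * K ^ 2) := by
          apply mul_le_mul_of_nonneg_left _ hPpos.le
          linarith
        nlinarith
  · intro hs1 hsum
    rcases le_or_gt s (g / 2) with hsg | hsg
    · have h1 : K - u ≤ s + t := by linarith
      have h2 : t ≤ (K / C) / 4 := by
        rw [le_div_iff₀ (by norm_num), le_div_iff₀ hCpos]
        linarith
      have h3 : 0 < u - b := by nlinarith
      have h4 : 0 < s * (u - b) := mul_pos (by linarith) h3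
      linarith
    · have h1 : K / C / 2 ≤ s := by linarith
      have h2 : t ≤ (K / C) / 4 := by
        rw [le_div_iff₀ (by norm_num), le_div_iff₀ hCpos]
        linarith
      have h2' : K / (2 * C) = K / C / 2 := by field_simp
      have h3 : (K / C) * (3 / 8) ≤ u - X := by
        rw [h2'] at hX'
        linarith
      have h4 : K ^ 2 / C ^ 2 * (3 / 16) ≤ s * (u - X) := by
        calc K ^ 2 / C ^ 2 * (3 / 16) = (K / C / 2) * ((K / C) * (3 / 8)) := by
              field_simp
              ring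
          _ ≤ s * (u - X) := mul_le_mul h1 h3 (by positivity) hs0
      have h5 : 0 < s * (u - X) - ν * K ^ 2 := by linarith
      have h6 : 0 < P * (s * (u - X) - ν * K ^ 2) := mul_pos hPpos h5
      linarith

/-- a law for a bipartite graph with bounds -/
theorem good_of_bounds {K r k : ℕ} {C δ ν ζ : ℝ} (hK : 0 < K) (hC : 1 ≤ C) (hδ : 0 < δ)
    (hδ1 : δ ≤ 1) (hν0 : 0 ≤ ν) (hν : 64 * C ^ 4 * ν ≤ δ) (hζ : 0 < ζ) (hζ4 : ζ ≤ 4)
    (hr1 : 1 ≤ r) (hr : r ^ 4 ≤ K) (hk : 2 ^ k ≤ r) (hrL : 8 * (⌈4 * C⌉₊ : ℝ) ≤ ζ * r)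
    {Cv a P : ℝ} {X b : ℕ} (B : Finset (Fin K × Fin K))
    (e0 : Finset (Fin K) → Finset (Fin K) → ℝ) (hCv1 : 1 ≤ Cv) (hCv : Cv ≤ C)
    (hPa : 1 + δ ≤ P * a * Cv) (hP1 : P ≤ 1) (hPC : 1 ≤ P * C)
    (hX : 2 * C * X + K ≤ C * K) (hb : (1 + δ) * K ≤ (K - b) * Cv)
    (ha : ∀ s u : ℕ, s ≤ u → u ≤ K → K ≤ s + u → a * K * ((s : ℝ) + u - K) ≤ s * (u - X))
    (hrow : ∀ x, K ≤ (Finset.univ.filter fun c => (x, c) ∈ B).card + b)
    (hcol : ∀ c, K ≤ (Finset.univ.filter fun x => (x, c) ∈ B).card + b)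
    (he0 : ∀ S T, (S.card : ℝ) * (T.card - X) ≤ e0 S T)
    (he0' : ∀ S T, (T.card : ℝ) * (S.card - X) ≤ e0 S T)
    (hrect : ∀ S T, P * (e0 S T - ν * K ^ 2) ≤ (rect B S T).card) :
    Good K (num (K * (⌈2 / δ⌉₊ + 1)) K k) (ζ * 2 ^ k / (4 * K)) ζ (Cv / K) B := by
  have hCpos : 0 < C := by linarith
  have hCvpos : 0 < Cv := by linarith
  have hKr : (0 : ℝ) < K := by exact_mod_cast hK
  have hPpos : 0 < P := by
    by_contra hcon
    push Not at hcon
    nlinarith
  set t := ⌊(K : ℝ) / (4 * C)⌋₊ with ht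
  have ht1 : (t : ℝ) ≤ K / (4 * C) := Nat.floor_le (by positivity)
  have ht2 : (K : ℝ) / (4 * C) < t + 1 := Nat.lt_floor_add_one _
  have ht3 : 4 * C * t ≤ K := by
    rw [le_div_iff₀ (by positivity)] at ht1
    linarith
  have hL : 4 * C ≤ (⌈4 * C⌉₊ : ℝ) := Nat.le_ceil _
  have hL1 : 1 ≤ ⌈4 * C⌉₊ := Nat.one_le_ceil_iff.2 (by linarith)
  have hcardK : ∀ S : Finset (Fin K), S.card ≤ K := by
    intro S
    have := Finset.card_le_univ S
    rwa [Fintype.card_fin] at this
  -- the core for every pair of sets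
  have hcore : ∀ S T : Finset (Fin K),
      ((K : ℝ) < S.card + T.card → (1 + δ / 2) * (K / Cv) * ((S.card : ℝ) + T.card - K) ≤
        (rect B S T).card) ∧
      (S.Nonempty → T.Nonempty → (K : ℝ) ≤ S.card + T.card + t →
        (0 : ℝ) < (rect B S T).card) := by
    intro S T
    have hr1 := rect_rows B hrow S T
    have hc1 := rect_cols B hcol S T
    rcases le_total S.card T.card with hST | hST
    · have h := core (K := K) (C := C) (Cv := Cv) (δ := δ) (ν := ν) (a := a) (P := P) (X := X)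
        (b := b) (t := t) (s := S.card) (u := T.card) (E := (rect B S T).card) hKr hC hCv1 hCv hδ
        hδ1 hν0 hν hPa hP1 hPC hX hb ht3 (by exact_mod_cast hST) (by exact_mod_cast hcardK T)
        (Nat.cast_nonneg _) (fun h => ha _ _ hST (hcardK T) (by exact_mod_cast h)) (by
          have : ((S.card * T.card : ℕ) : ℝ) ≤ ((rect B S T).card + S.card * b : ℕ) := by
            exact_mod_cast hr1
          push_cast at this
          linarith) (by
          refine le_trans ?_ (hrect S T)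
          apply mul_le_mul_of_nonneg_left _ hPpos.le
          linarith [he0 S T])
      refine ⟨h.1, ?_⟩
      intro hS _ hsum
      exact h.2 (by exact_mod_cast hS.card_pos) hsum
    · have h := core (K := K) (C := C) (Cv := Cv) (δ := δ) (ν := ν) (a := a) (P := P) (X := X)
        (b := b) (t := t) (s := T.card) (u := S.card) (E := (rect B S T).card) hKr hC hCv1 hCv hδ
        hδ1 hν0 hν hPa hP1 hPC hX hb ht3 (by exact_mod_cast hST) (by exact_mod_cast hcardK S)
        (Nat.cast_nonneg _) (fun h => ha _ _ hST (hcardK S) (by exact_mod_cast h)) (by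
          have : ((S.card * T.card : ℕ) : ℝ) ≤ ((rect B S T).card + T.card * b : ℕ) := by
            exact_mod_cast hc1
          push_cast at this
          linarith) (by
          refine le_trans ?_ (hrect S T)
          apply mul_le_mul_of_nonneg_left _ hPpos.le
          linarith [he0' S T])
      constructor
      · intro hsum
        have h1 := h.1 (by linarith)
        rw [add_comm (T.card : ℝ)] at h1
        exact h1
      · intro _ hT hsum
        exact h.2 (by exact_mod_cast hT.card_pos) (by linarith)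
  refine good_of_robust (M := ⌈2 / δ⌉₊ + 1) (r := r) (L := ⌈4 * C⌉₊) (t := t) (δ := δ / 2) B hK
    hCvpos (by linarith) hζ hζ4 ?_ hr1 hr hk hL1 hrL ?_ ?_ ?_
  · have h1 : 2 / δ ≤ (⌈2 / δ⌉₊ : ℝ) := Nat.le_ceil _
    push_cast
    have h2 : 2 / δ + 1 ≤ Cv * ((⌈2 / δ⌉₊ : ℝ) + 1) := by
      calc 2 / δ + 1 ≤ (⌈2 / δ⌉₊ : ℝ) + 1 := by linarith
        _ ≤ Cv * ((⌈2 / δ⌉₊ : ℝ) + 1) := by
            have : (0 : ℝ) ≤ (⌈2 / δ⌉₊ : ℝ) := Nat.cast_nonneg _
            nlinarith
    calc 1 + δ / 2 = δ / 2 * (2 / δ + 1) := by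
          field_simp
      _ ≤ δ / 2 * (Cv * ((⌈2 / δ⌉₊ : ℝ) + 1)) := mul_le_mul_of_nonneg_left h2 (by linarith)
  · have h1 : (K : ℝ) ≤ ((⌈4 * C⌉₊ * (t + 1) + 1 : ℕ) : ℝ) := by
      push_cast
      rw [div_lt_iff₀ (by positivity)] at ht2
      have h2 : 4 * C * ((t : ℝ) + 1) ≤ (⌈4 * C⌉₊ : ℝ) * ((t : ℝ) + 1) :=
        mul_le_mul_of_nonneg_right hL (by positivity)
      linarith
    exact_mod_cast h1
  · intro S T hS hT hsum
    have h1 := (hcore S T).2 hS hT (by exact_mod_cast hsum)
    rw [← Finset.card_pos]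
    exact_mod_cast h1
  · intro S T hsum
    exact (hcore S T).1 (by exact_mod_cast hsum)

end Pool.Agent.H24.LP.Nib
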