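import Pool.Agent.H24.LP.Nib.Merge

/-!
# The sampler
-/

namespace Pool.Agent.H24.LP.Nib

open Finset

set_option linter.unusedSectionVars false

/-- the number of outcomes of the sampler -/
def num (N K : ℕ) : ℕ → ℕ
  | 0 => N
  | k + 1 => num N K k * num N K k * 2 ^ K

/-- rows of a permutation outside `B` -/
def bad {K : ℕ} (B : Finset (Fin K × Fin K)) (π : Equiv.Perm (Fin K)) : Finset (Fin K) :=
  Finset.univ.filter fun a => (a, π a) ∉ B

/-- convexity bound for the exponential moment -/
lemma base_moment {K N : ℕ} (τ : Fin N → Equiv.Perm (Fin K)) (A : Finset (Fin K × Fin K))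
    (s m : ℝ) (hs : 0 ≤ s) (hsK : s * K ≤ 1) (hm : (∑ i, (hits (τ i) A : ℝ)) ≤ N * m)
    (hmK : m ≤ K) :
    ∑ i, Real.exp (s * hits (τ i) A) ≤ N * Real.exp (s * (m + s * K ^ 2)) := by
  rcases Nat.eq_zero_or_pos K with rfl | hK
  · have h0 : ∀ i, hits (τ i) A = 0 := fun i => Nat.le_zero.1 (hits_le _ _)
    simp only [h0, Nat.cast_zero, mul_zero, Real.exp_zero, Finset.sum_const, Finset.card_univ,
      Fintype.card_fin, nsmul_eq_mul, mul_one]
    simp only [h0, Nat.cast_zero, Finset.sum_const_zero] at hm
    have h1 : (0 : ℝ) ≤ N := Nat.cast_nonneg N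
    rcases h1.eq_or_lt with h1 | h1
    · rw [← h1]
      simp
    · have h2 : 0 ≤ m := by
        by_contra hcon
        push Not at hcon
        have := mul_neg_of_pos_of_neg h1 hcon
        linarith
      have h3 : 1 ≤ Real.exp (s * (m + s * 0 ^ 2)) := Real.one_le_exp (by positivity)
      calc (N : ℝ) = N * 1 := (mul_one _).symm
        _ ≤ _ := mul_le_mul_of_nonneg_left h3 h1.le
  have hKr : (0 : ℝ) < K := by exact_mod_cast hK
  set y := s * (K : ℝ) with hy
  have hy0 : 0 ≤ y := by positivity
  have hone : ∀ i, Real.exp (s * hits (τ i) A) ≤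
      1 + (hits (τ i) A : ℝ) / K * (Real.exp y - 1) := by
    intro i
    have h1 : (hits (τ i) A : ℝ) ≤ K := by exact_mod_cast hits_le _ _
    set t : ℝ := (hits (τ i) A : ℝ) / K with ht
    have ht0 : 0 ≤ t := by positivity
    have ht1 : t ≤ 1 := by
      rw [ht, div_le_one hKr]
      exact h1
    have hconv := convexOn_exp.2 (Set.mem_univ 0) (Set.mem_univ y) (by linarith : 0 ≤ 1 - t) ht0
      (by ring : 1 - t + t = 1)
    simp only [smul_eq_mul, mul_zero, zero_add, Real.exp_zero, mul_one] at hconv
    have h2 : s * (hits (τ i) A : ℝ) = t * y := by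
      rw [ht, hy]
      field_simp
    rw [h2]
    linarith
  have hexp : Real.exp y - 1 ≤ y * (1 + y) := by
    have h1 := Real.abs_exp_sub_one_sub_id_le (x := y) (by rw [abs_of_nonneg hy0]; exact hsK)
    have h2 := (abs_le.1 h1).2
    linarith [sq y]
  have hexp0 : 0 ≤ Real.exp y - 1 := by
    have := Real.one_le_exp hy0
    linarith
  calc ∑ i, Real.exp (s * hits (τ i) A)
      ≤ ∑ i : Fin N, (1 + (hits (τ i) A : ℝ) / K * (Real.exp y - 1)) :=
        Finset.sum_le_sum fun i _ => hone i
    _ = N + (∑ i, (hits (τ i) A : ℝ)) / K * (Real.exp y - 1) := by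
        rw [Finset.sum_add_distrib, ← Finset.sum_mul, ← Finset.sum_div]
        simp
    _ ≤ N + (N * m) / K * (Real.exp y - 1) := by
        have : (∑ i, (hits (τ i) A : ℝ)) / K ≤ (N * m) / K := by gcongr
        have := mul_le_mul_of_nonneg_right this hexp0
        linarith
    _ = N * (1 + m / K * (Real.exp y - 1)) := by ring
    _ ≤ N * Real.exp (m / K * (Real.exp y - 1)) := by
        apply mul_le_mul_of_nonneg_left _ (Nat.cast_nonneg N)
        have := Real.add_one_le_exp (m / K * (Real.exp y - 1))
        linarith
    _ ≤ N * Real.exp (s * (m + s * K ^ 2)) := by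
        rcases (Nat.cast_nonneg N : (0 : ℝ) ≤ N).eq_or_lt with h0 | h0
        · rw [← h0]
          simp
        apply mul_le_mul_of_nonneg_left _ (Nat.cast_nonneg N)
        rw [Real.exp_le_exp]
        have hm0 : 0 ≤ m := by
          by_contra hcon
          push Not at hcon
          have h1 := mul_neg_of_pos_of_neg h0 hcon
          have h2 : (0 : ℝ) ≤ ∑ i, (hits (τ i) A : ℝ) :=
            Finset.sum_nonneg fun i _ => Nat.cast_nonneg _
          linarith
        have h1 : m / K * (Real.exp y - 1) ≤ m / K * (y * (1 + y)) :=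
          mul_le_mul_of_nonneg_left hexp (by positivity)
        have h2 : m / K * (y * (1 + y)) = s * m + s * (s * (m * K)) := by
          rw [hy]
          field_simp
        have h3 : s * (s * (m * K)) ≤ s * (s * K ^ 2) := by
          apply mul_le_mul_of_nonneg_left _ hs
          apply mul_le_mul_of_nonneg_left _ hs
          rw [sq]
          exact mul_le_mul_of_nonneg_right hmK hKr.le
        linarith

/-- The sampler: random permutations with small exponential moments and few bad rows. -/
theorem sampler {K N : ℕ} (g : ℕ) (hg : 1 ≤ g) (B : Finset (Fin K × Fin K))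
    (τ : Fin N → Equiv.Perm (Fin K)) (hτ : ∀ i a, (a, τ i a) ∈ B) (k : ℕ) :
    ∃ F : Fin (num N K k) → Equiv.Perm (Fin K),
      (∀ w, g * (bad B (F w)).card + 2 * K ≤ 2 ^ k * (2 * K)) ∧
      ∀ (A : Finset (Fin K × Fin K)) (s m : ℝ), 0 ≤ s → s * K ≤ 2 ^ k →
        (∑ i, (hits (τ i) A : ℝ)) ≤ N * m → m ≤ K →
        ∑ w, Real.exp (s * hits (F w) A) ≤ (num N K k) *
          Real.exp (s * (m + s * K ^ 2 / 2 ^ k + s * g * K / 4 + k * (2 * K / g))) := by
  classical
  have hgr : (0 : ℝ) < g := by exact_mod_cast hg
  induction k with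
  | zero =>
    refine ⟨τ, ?_, ?_⟩
    · intro w
      have : bad B (τ w) = ∅ := by
        unfold bad
        rw [Finset.filter_eq_empty_iff]
        intro a _ h
        exact h (hτ w a)
      rw [this]
      simp
    · intro A s m hs hsK hm hmK
      have h1 := base_moment τ A s m hs (by simpa using hsK) hm hmK
      refine h1.trans ?_
      change (N : ℝ) * _ ≤ (N : ℝ) * _
      apply mul_le_mul_of_nonneg_left _ (Nat.cast_nonneg N)
      rw [Real.exp_le_exp]
      apply mul_le_mul_of_nonneg_left _ hs
      have : 0 ≤ s * g * K / 4 := by positivity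
      simp only [pow_zero, div_one, Nat.cast_zero, zero_mul, add_zero]
      linarith
  | succ k ih =>
    obtain ⟨F, hF1, hF2⟩ := ih
    have hmer := fun w w' : Fin (num N K k) => exists_merge g hg (F w) (F w')
    choose p bd mu hp hbd hmu using hmer
    have hcard : Fintype.card (Fin (num N K k) × Fin (num N K k) × (Fin K → Bool)) =
        num N K (k + 1) := by
      simp only [Fintype.card_prod, Fintype.card_fin, Fintype.card_fun, Fintype.card_bool, num]
      ring
    let e := Fintype.equivFinOfCardEq hcard
    refine ⟨fun x => mu (e.symm x).1 (e.symm x).2.1 (e.symm x).2.2, ?_, ?_⟩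
    · intro x
      set w := (e.symm x).1
      set w' := (e.symm x).2.1
      set coin := (e.symm x).2.2
      have hsub : bad B (mu w w' coin) ⊆ bd w w' ∪ (bad B (F w) ∪ bad B (F w')) := by
        intro a ha
        unfold bad at ha ⊢
        rw [Finset.mem_filter] at ha
        rw [Finset.mem_union, Finset.mem_union, Finset.mem_filter, Finset.mem_filter]
        by_cases hb : a ∈ bd w w'
        · exact Or.inl hb
        · right
          have h1 := ha.2
          rw [hmu w w' coin a hb] at h1
          by_cases hc : coin (p w w' a) = true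
          · rw [if_pos hc] at h1
            exact Or.inl ⟨Finset.mem_univ _, h1⟩
          · rw [if_neg hc] at h1
            exact Or.inr ⟨Finset.mem_univ _, h1⟩
      have h1 := (Finset.card_le_card hsub).trans ((Finset.card_union_le _ _).trans
        (Nat.add_le_add_left (Finset.card_union_le _ _) _))
      have h2 := hbd w w'
      have h3 := hF1 w
      have h4 := hF1 w'
      have h5 : g * (bad B (mu w w' coin)).card ≤ g * (bd w w').card +
          (g * (bad B (F w)).card + g * (bad B (F w')).card) := by
        rw [← mul_add, ← mul_add]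
        exact Nat.mul_le_mul_left _ h1
      rw [pow_succ]
      change g * (bad B (mu w w' coin)).card + 2 * K ≤ 2 ^ k * 2 * (2 * K)
      generalize 2 ^ k = q at *
      have h6 : q * 2 * (2 * K) = q * (2 * K) + q * (2 * K) := by ring
      omega
    · intro A s m hs hsK hm hmK
      have hre : ∑ x, Real.exp (s * hits (mu (e.symm x).1 (e.symm x).2.1 (e.symm x).2.2) A) =
          ∑ y : Fin (num N K k) × Fin (num N K k) × (Fin K → Bool),
            Real.exp (s * hits (mu y.1 y.2.1 y.2.2) A) :=
        Equiv.sum_comp e.symm (fun y => Real.exp (s * hits (mu y.1 y.2.1 y.2.2) A))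
      rw [hre, Fintype.sum_prod_type]
      simp only [Fintype.sum_prod_type]
      set c := Real.exp (s * (2 * K / g) + s ^ 2 * (g * K) / 8) with hc
      have hone : ∀ w w', ∑ coin : Fin K → Bool, Real.exp (s * hits (mu w w' coin) A) ≤
          2 ^ K * (c * (Real.exp (s / 2 * hits (F w) A) * Real.exp (s / 2 * hits (F w') A))) := by
        intro w w'
        refine (merge_moment g (F w) (F w') (p w w') (bd w w') (mu w w') (hp w w') (hmu w w')
          A s hs).trans ?_
        apply mul_le_mul_of_nonneg_left _ (by positivity)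
        rw [hc, ← Real.exp_add, ← Real.exp_add, Real.exp_le_exp]
        have h1 : (g : ℝ) * (bd w w').card ≤ 2 * K := by exact_mod_cast hbd w w'
        have h2 : ((bd w w').card : ℝ) ≤ 2 * K / g := by
          rw [le_div_iff₀ hgr]
          linarith
        have h3 := mul_le_mul_of_nonneg_left h2 hs
        have h4 : s * ((hits (F w) A : ℝ) + hits (F w') A) / 2 =
          s / 2 * hits (F w) A + s / 2 * hits (F w') A := by ring
        rw [h4]
        linarith
      have hsum : ∑ w, ∑ w', ∑ coin : Fin K → Bool, Real.exp (s * hits (mu w w' coin) A) ≤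
          2 ^ K * (c * ((∑ w, Real.exp (s / 2 * hits (F w) A)) *
            (∑ w', Real.exp (s / 2 * hits (F w') A)))) := by
        rw [Finset.sum_mul_sum, Finset.mul_sum, Finset.mul_sum]
        apply Finset.sum_le_sum
        intro w _
        rw [Finset.mul_sum, Finset.mul_sum]
        apply Finset.sum_le_sum
        intro w' _
        exact hone w w'
      have hih := hF2 A (s / 2) m (by positivity) (by
        rw [pow_succ] at hsK
        linarith) hm hmK
      refine hsum.trans ?_
      have hnn : 0 ≤ ∑ w, Real.exp (s / 2 * hits (F w) A) :=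
        Finset.sum_nonneg fun _ _ => (Real.exp_pos _).le
      set Z := Real.exp (s / 2 * (m + s / 2 * K ^ 2 / 2 ^ k + s / 2 * g * K / 4 +
        k * (2 * K / g))) with hZ
      have h1 : (∑ w, Real.exp (s / 2 * hits (F w) A)) * (∑ w', Real.exp (s / 2 * hits (F w') A)) ≤
          (num N K k * Z) * (num N K k * Z) := mul_le_mul hih hih hnn (by positivity)
      calc 2 ^ K * (c * ((∑ w, Real.exp (s / 2 * hits (F w) A)) *
            (∑ w', Real.exp (s / 2 * hits (F w') A))))
          ≤ 2 ^ K * (c * ((num N K k * Z) * (num N K k * Z))) := by gcongr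
        _ = (num N K (k + 1) : ℕ) * (c * (Z * Z)) := by
            simp only [num]
            push_cast
            ring
        _ ≤ _ := by
            apply mul_le_mul_of_nonneg_left _ (Nat.cast_nonneg _)
            rw [hc, hZ, ← Real.exp_add, ← Real.exp_add, Real.exp_le_exp]
            have h5 : (2 : ℝ) ^ (k + 1) = 2 ^ k * 2 := pow_succ _ _
            rw [h5]
            push_cast
            have h6 : s * (K : ℝ) ^ 2 / (2 ^ k * 2) = s * K ^ 2 / 2 ^ k / 2 := by
              rw [div_div]
            rw [h6]
            have h7 : s / 2 * (K : ℝ) ^ 2 / 2 ^ k = s * K ^ 2 / 2 ^ k / 2 := by ring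
            rw [h7]
            apply le_of_eq
            ring

end Pool.Agent.H24.LP.Nib
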