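import Pool.Agent.H24.LP.Nib.Good

/-!
# One step of the process: the potential of a bipartite graph of available cells
-/

namespace Pool.Agent.H24.LP.Nib

open Finset

set_option linter.unusedSectionVars false

/-- the controlled moments -/
def Mom (K n : ℕ) (lam z c : ℝ) (F : Fin n → Equiv.Perm (Fin K)) : Prop :=
  ∀ (A : Finset (Fin K × Fin K)) (s : ℝ), 0 ≤ s → s ≤ lam →
    ∑ w, Real.exp (s * hits (F w) A) ≤ n * Real.exp (s * (c * A.card + z * K))

lemma mom_mul {K n : ℕ} {lam z c : ℝ} {F : Fin n → Equiv.Perm (Fin K)} (h : Mom K n lam z c F)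
    (τ : Equiv.Perm (Fin K)) : Mom K n lam z c (fun w => τ * F w) := by
  classical
  intro A s hs0 hs
  let f : Fin K × Fin K → Fin K × Fin K := fun p => (p.1, τ⁻¹ p.2)
  have hf : Function.Injective f := by
    rintro ⟨a, b⟩ ⟨c, d⟩ h
    simp only [f, Prod.mk.injEq] at h
    obtain ⟨h1, h2⟩ := h
    rw [h1, τ⁻¹.injective h2]
  have h1 := h (A.image f) s hs0 hs
  rw [Finset.card_image_of_injective _ hf] at h1
  refine le_trans (le_of_eq ?_) h1
  apply Finset.sum_congr rfl
  intro w _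
  congr 3
  unfold hits
  congr 1
  ext a
  simp only [Finset.mem_filter, Finset.mem_univ, true_and, Equiv.Perm.mul_apply]
  constructor
  · intro ha
    rw [Finset.mem_image]
    exact ⟨_, ha, by simp [f]⟩
  · intro ha
    rw [Finset.mem_image] at ha
    obtain ⟨⟨x, y⟩, hxy, heq⟩ := ha
    simp only [f, Prod.mk.injEq] at heq
    obtain ⟨rfl, h2⟩ := heq
    rw [← h2]
    simpa using hxy

/-- remove the cells of a permutation -/
def cut {K : ℕ} (B : Finset (Fin K × Fin K)) (p : Equiv.Perm (Fin K)) : Finset (Fin K × Fin K) :=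
  B.filter fun x => p x.1 ≠ x.2

lemma card_rect_cut {K : ℕ} (B : Finset (Fin K × Fin K)) (p : Equiv.Perm (Fin K))
    (S T : Finset (Fin K)) :
    ((rect (cut B p) S T).card : ℝ) = (rect B S T).card - hits p (rect B S T) := by
  have h1 : (rect (cut B p) S T).card + hits p (rect B S T) = (rect B S T).card := by
    rw [hits_eq]
    have h2 : rect (cut B p) S T = (rect B S T).filter fun x => ¬ p x.1 = x.2 := by
      ext x
      rw [mem_rect, Finset.mem_filter, mem_rect]
      unfold cut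
      rw [Finset.mem_filter]
      tauto
    rw [h2, add_comm]
    exact Finset.card_filter_add_card_filter_not _
  rw [← h1]
  push_cast
  ring

/-- the potential -/
noncomputable def pot {K : ℕ} (l : ℝ) (e0 : Finset (Fin K) → Finset (Fin K) → ℝ) (q : ℝ)
    (B : Finset (Fin K × Fin K)) : ℝ :=
  ∑ x : Finset (Fin K) × Finset (Fin K), Real.exp (l * (e0 x.1 x.2 - (rect B x.1 x.2).card / q))

lemma pot_pos {K : ℕ} (l : ℝ) (e0 : Finset (Fin K) → Finset (Fin K) → ℝ) (q : ℝ)
    (B : Finset (Fin K × Fin K)) : 0 < pot l e0 q B := by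
  unfold pot
  exact Finset.sum_pos (fun _ _ => Real.exp_pos _) ⟨(∅, ∅), Finset.mem_univ _⟩

theorem step {K n : ℕ} {lam z c l q : ℝ} {F : Fin n → Equiv.Perm (Fin K)}
    (hF : Mom K n lam z c F) (hl : 0 ≤ l) (hq : 0 < q) (hc : c < 1)
    (hlam : l / (q * (1 - c)) ≤ lam) (e0 : Finset (Fin K) → Finset (Fin K) → ℝ)
    (B : Finset (Fin K × Fin K)) :
    ∑ w, pot l e0 (q * (1 - c)) (cut B (F w)) ≤
      n * (Real.exp (l * z * K / (q * (1 - c))) * pot l e0 q B) := by
  have h1c : 0 < 1 - c := by linarith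
  have hq' : 0 < q * (1 - c) := mul_pos hq h1c
  set q' := q * (1 - c) with hq'def
  unfold pot
  rw [Finset.sum_comm, Finset.mul_sum, Finset.mul_sum]
  apply Finset.sum_le_sum
  intro x _
  set E : ℝ := ((rect B x.1 x.2).card : ℝ) with hE
  have h1 : ∀ w, Real.exp (l * (e0 x.1 x.2 - (rect (cut B (F w)) x.1 x.2).card / q')) =
      Real.exp (l * (e0 x.1 x.2 - E / q')) *
        Real.exp (l / q' * hits (F w) (rect B x.1 x.2)) := by
    intro w
    rw [card_rect_cut, ← Real.exp_add]
    congr 1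
    field_simp
    ring
  rw [Finset.sum_congr rfl (fun w _ => h1 w), ← Finset.mul_sum]
  have h2 := hF (rect B x.1 x.2) (l / q') (by positivity) hlam
  refine (mul_le_mul_of_nonneg_left h2 (Real.exp_pos _).le).trans (le_of_eq ?_)
  have h3 : E / q' - c * E / q' = E / q := by
    rw [hq'def]
    field_simp
  have h4 : Real.exp (l * (e0 x.1 x.2 - E / q')) * (n * Real.exp (l / q' * (c * E + z * K))) =
      n * Real.exp (l * (e0 x.1 x.2 - (E / q' - c * E / q')) + l * z * K / q') := by
    rw [mul_left_comm, ← Real.exp_add]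
    congr 2
    field_simp
    ring
  rw [h4, h3, Real.exp_add]
  ring

/-- an outcome which is fine for all later neighbours -/
theorem exists_outcome {ι : Type} {n D : ℕ} (hn : 0 < n) (J : Finset ι) (hJ : J.card ≤ D)
    (f : ι → Fin n → ℝ) (hf : ∀ v w, 0 ≤ f v w) (X : ι → ℝ) (hX : ∀ v ∈ J, 0 < X v)
    (h : ∀ v ∈ J, ∑ w, f v w ≤ n * X v) : ∃ w, ∀ v ∈ J, f v w ≤ D * X v := by
  classical
  by_contra hcon
  push Not at hcon
  have h1 : ∀ w : Fin n, (D : ℝ) < ∑ v ∈ J, f v w / X v := by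
    intro w
    obtain ⟨v, hv, hlt⟩ := hcon w
    calc (D : ℝ) < f v w / X v := by
          rw [lt_div_iff₀ (hX v hv)]
          exact hlt
      _ ≤ ∑ v ∈ J, f v w / X v :=
          Finset.single_le_sum (f := fun v => f v w / X v)
            (fun v hv => div_nonneg (hf v w) (hX v hv).le) hv
  have h2 : (n : ℝ) * D < ∑ w, ∑ v ∈ J, f v w / X v := by
    calc (n : ℝ) * D = ∑ _w : Fin n, (D : ℝ) := by
          rw [Finset.sum_const, Finset.card_univ, Fintype.card_fin, nsmul_eq_mul]
      _ < ∑ w, ∑ v ∈ J, f v w / X v :=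
          Finset.sum_lt_sum_of_nonempty ⟨⟨0, hn⟩, Finset.mem_univ _⟩ fun w _ => h1 w
  rw [Finset.sum_comm] at h2
  have h3 : ∑ v ∈ J, ∑ w, f v w / X v ≤ ∑ _v ∈ J, (n : ℝ) := by
    apply Finset.sum_le_sum
    intro v hv
    rw [← Finset.sum_div, div_le_iff₀ (hX v hv)]
    exact h v hv
  rw [Finset.sum_const, nsmul_eq_mul] at h3
  have h4 : (J.card : ℝ) * n ≤ D * n := by
    apply mul_le_mul_of_nonneg_right _ (Nat.cast_nonneg n)
    exact_mod_cast hJ
  linarith

end Pool.Agent.H24.LP.Nib
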