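import Pool.Agent.H24.LP.Nib.Extend
import Pool.Agent.H24.LP.Mad

/-!
# Asymptotic bounds
-/

namespace Pool.Agent.H24.LP.Nib

open Finset

set_option linter.unusedSectionVars false

theorem permPackable_mad {ε : ℝ} (hε : 0 < ε) : ∃ K0 : ℕ, ∀ K ≥ K0, ∀ (V : Type) (_ : Finite V)
    (G : SimpleGraph V), MadLT G ((2 / 3 - ε) * K) → PermPackable G K := by
  classical
  obtain ⟨ε', hε'0, hε'1, hε'2⟩ : ∃ ε' : ℝ, 0 < ε' ∧ ε' < 1 ∧ ε' ≤ ε :=
    ⟨min ε (1 / 2), by positivity, lt_of_le_of_lt (min_le_right _ _) (by norm_num),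
      min_le_left _ _⟩
  obtain ⟨K0, hK0⟩ := extend hε'0 hε'1
  refine ⟨K0, ?_⟩
  intro K hK V _ G h
  cases nonempty_fintype V
  intro σ hσ
  have hKr : (0 : ℝ) ≤ K := Nat.cast_nonneg _
  have key : ∀ n : ℕ, ∀ S : Finset V, S.card = n → ∃ π, ValidK G σ S π := by
    intro n
    induction n using Nat.strong_induction_on with
    | _ n ih =>
      intro S hSn
      rcases S.eq_empty_or_nonempty with rfl | hS
      · exact ⟨fun _ => 1, fun u hu => absurd hu (Finset.notMem_empty u)⟩
      obtain ⟨W, hW, hmax⟩ := Finset.exists_max_image S.powerset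
        (fun W => 2 * ∑ v ∈ W, ((nb G S v).card : ℝ) + (E2 G W : ℝ) - 2 * ((1 - ε') * K) * W.card)
        ⟨∅, Finset.empty_mem_powerset S⟩
      rw [Finset.mem_powerset] at hW
      have hR : ∀ v ∈ S \ W, 2 * ((nb G W v).card : ℝ) + (nb G (S \ W) v).card ≤
          (1 - ε') * K := by
        intro v hv
        rw [Finset.mem_sdiff] at hv
        have h1 := hmax (insert v W) (Finset.mem_powerset.2 (Finset.insert_subset hv.1 hW))
        rw [E2_insert G W hv.2, Finset.card_insert_of_notMem hv.2,
          Finset.sum_insert hv.2] at h1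
        have h2 : ((nb G S v).card : ℝ) = (nb G W v).card + (nb G (S \ W) v).card := by
          have := nb_split G (Finset.disjoint_sdiff (s := W) (t := S)) v
          rw [Finset.union_sdiff_of_subset hW] at this
          exact_mod_cast this
        push_cast at h1
        rw [h2] at h1
        linarith
      have hne : W ≠ S := by
        intro hWS
        have h1 := hmax ∅ (Finset.empty_mem_powerset S)
        rw [hWS] at h1
        have h2 := sum_nb_lt h S hS
        have h3 : (E2 G (∅ : Finset V) : ℝ) = 0 := by simp [E2]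
        have h4 : (E2 G S : ℝ) = ∑ v ∈ S, ((nb G S v).card : ℝ) := by
          unfold E2
          push_cast
          rfl
        rw [h3, h4] at h1
        push_cast at h2
        have hSpos : (0 : ℝ) < S.card := by exact_mod_cast hS.card_pos
        have h5 : (2 / 3 - ε) * K * S.card ≤ (2 / 3 - 2 / 3 * ε') * K * S.card := by
          apply mul_le_mul_of_nonneg_right _ hSpos.le
          apply mul_le_mul_of_nonneg_right _ hKr
          linarith
        simp only [Finset.sum_empty, Finset.card_empty, Nat.cast_zero] at h1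
        nlinarith
      have hlt : W.card < n := by
        rw [← hSn]
        exact Finset.card_lt_card (hW.ssubset_of_ne hne)
      obtain ⟨π, hπ⟩ := ih W.card hlt W rfl
      obtain ⟨ρ, hρ, -⟩ := hK0 K hK V G σ hσ W (S \ W) π Finset.disjoint_sdiff hπ hR
      rw [Finset.union_sdiff_of_subset hW] at hρ
      exact ⟨ρ, hρ⟩
  obtain ⟨π, hπ⟩ := key _ Finset.univ rfl
  exact ⟨π, fun u v huv => hπ u (Finset.mem_univ _) v (Finset.mem_univ _) huv⟩

theorem permPackable_deg {ε : ℝ} (hε : 0 < ε) : ∃ K0 : ℕ, ∀ K ≥ K0, ∀ (V : Type) (_ : Finite V)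
    (G : SimpleGraph V), (∀ v, ((G.neighborSet v).ncard : ℝ) ≤ (1 - ε) * K) →
      PermPackable G K := by
  classical
  obtain ⟨ε', hε'0, hε'1, hε'2⟩ : ∃ ε' : ℝ, 0 < ε' ∧ ε' < 1 ∧ ε' ≤ ε :=
    ⟨min ε (1 / 2), by positivity, lt_of_le_of_lt (min_le_right _ _) (by norm_num),
      min_le_left _ _⟩
  obtain ⟨K0, hK0⟩ := extend hε'0 hε'1
  refine ⟨K0, ?_⟩
  intro K hK V _ G h
  cases nonempty_fintype V
  intro σ hσ
  have hKr : (0 : ℝ) ≤ K := Nat.cast_nonneg _
  obtain ⟨ρ, hρ, -⟩ := hK0 K hK V G σ hσ ∅ Finset.univ (fun _ => 1)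
    (Finset.disjoint_empty_left _) (fun u hu => absurd hu (Finset.notMem_empty u)) (by
      intro v _
      have h1 : nb G (∅ : Finset V) v = ∅ := by
        ext x
        rw [mem_nb]
        simp
      have h2 : ((nb G Finset.univ v).card : ℝ) = (G.neighborSet v).ncard := by
        congr 1
        rw [Set.ncard_eq_toFinset_card']
        congr 1
        ext x
        rw [mem_nb]
        simp
      rw [h1, h2, Finset.card_empty, Nat.cast_zero, mul_zero, zero_add]
      refine (h v).trans ?_
      apply mul_le_mul_of_nonneg_right _ hKr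
      linarith)
  rw [Finset.empty_union] at hρ
  exact ⟨ρ, fun u v huv => hρ u (Finset.mem_univ _) v (Finset.mem_univ _) huv⟩

end Pool.Agent.H24.LP.Nib
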